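import Mathlib

set_option autoImplicit false

/-!
# Poonen's strict form of the union-closed sets conjecture for families of order dimension at most four
-/

namespace Pool.Agent.H200R3.Dim4

open Finset

/-- The family `A`, ordered by inclusion, has order dimension at most `d`: it embeds (as an ordered
set) in a product of `d` chains. -/
def OrderDimLE (A : Finset (Finset ℕ)) (d : ℕ) : Prop :=
  ∃ f : Finset ℕ → Fin d → ℕ, ∀ X ∈ A, ∀ Y ∈ A, X ⊆ Y ↔ ∀ i, f X i ≤ f Y i

theorem count_le (b : Fin 4 → Bool) :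
    (univ.filter (fun i => b i = true)).card ≤
      2 + (univ.filter (fun l => ∀ m, m ≠ l → b m = true)).card := by
  revert b
  decide

theorem dec2' : ∀ (b c : Fin 4 → Bool) (j : Fin 4),
    (∃ m : Fin 4, ∃ m' : Fin 4, m ≠ m' ∧ b m = true ∧ b m' = true) → b j = false → c j = false →
    (∃ l : Fin 4, c l = true) →
    ∃ l : Fin 4, c l = true ∧ ∀ m : Fin 4, c m = true → m ≠ l → b m = true := by
  decide

theorem dec2 (b : Fin 4 → Bool) (B : Finset (Fin 4)) (j : Fin 4)
    (h : ∃ m : Fin 4, ∃ m' : Fin 4, m ≠ m' ∧ b m = true ∧ b m' = true) (hj : b j = false)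
    (hjB : j ∉ B) (hB : B ≠ ∅) :
    ∃ l : Fin 4, l ∈ B ∧ ∀ m : Fin 4, m ∈ B → m ≠ l → b m = true := by
  obtain ⟨l₀, hl₀⟩ := nonempty_iff_ne_empty.mpr hB
  have := dec2' b (fun m => decide (m ∈ B)) j h hj (by simpa using hjB) ⟨l₀, by simpa using hl₀⟩
  simpa using this

/-- the union of the members contained in both `P` and `Q` -/
def meet (A : Finset (Finset ℕ)) (P Q : Finset ℕ) : Finset ℕ :=
  (A.filter (fun S => S ⊆ P ∧ S ⊆ Q)).sup id

theorem meet_left (A : Finset (Finset ℕ)) (P Q : Finset ℕ) : meet A P Q ⊆ P := by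
  unfold meet
  refine Finset.sup_le ?_
  intro S hS
  exact (mem_filter.mp hS).2.1

theorem meet_right (A : Finset (Finset ℕ)) (P Q : Finset ℕ) : meet A P Q ⊆ Q := by
  unfold meet
  refine Finset.sup_le ?_
  intro S hS
  exact (mem_filter.mp hS).2.2

theorem le_meet {A : Finset (Finset ℕ)} {P Q S : Finset ℕ} (hS : S ∈ A) (h1 : S ⊆ P)
    (h2 : S ⊆ Q) : S ⊆ meet A P Q := by
  unfold meet
  exact Finset.le_sup (f := id) (mem_filter.mpr ⟨hS, h1, h2⟩)

theorem sup_mem' {A : Finset (Finset ℕ)} (hU : ∀ X ∈ A, ∀ Y ∈ A, X ∪ Y ∈ A)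
    (B : Finset (Finset ℕ)) (hB : B ⊆ A) (hne : B.Nonempty) : B.sup id ∈ A := by
  rw [← Finset.sup'_eq_sup hne]
  exact Finset.sup'_mem (A : Set (Finset ℕ)) (fun X hX Y hY => hU X hX Y hY) B hne id
    (fun S hS => hB hS)

theorem meet_mem {A : Finset (Finset ℕ)} (hU : ∀ X ∈ A, ∀ Y ∈ A, X ∪ Y ∈ A)
    {P Q S : Finset ℕ} (hS : S ∈ A) (h1 : S ⊆ P) (h2 : S ⊆ Q) : meet A P Q ∈ A :=
  sup_mem' hU _ (filter_subset _ _) ⟨S, mem_filter.mpr ⟨hS, h1, h2⟩⟩

/-- The counting argument. `M x` is the largest member of `A` that avoids `x`. -/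
theorem counting (A : Finset (Finset ℕ)) (hU : ∀ X ∈ A, ∀ Y ∈ A, X ∪ Y ∈ A)
    (f : Finset ℕ → Fin 4 → ℕ) (hf : ∀ X ∈ A, ∀ Y ∈ A, X ⊆ Y ↔ ∀ i, f X i ≤ f Y i)
    (G : Finset ℕ) (hG : G ∈ A) (hGtop : ∀ S ∈ A, S ⊆ G) (M : ℕ → Finset ℕ)
    (hMA : ∀ x, M x ∈ A) (hM : ∀ x, ∀ S ∈ A, x ∉ S ↔ S ⊆ M x)
    (t : Fin 4 → ℕ) (htG : ∀ i, t i ∈ G)
    (ht1 : ∀ i, ∀ x ∈ G, f (M (t i)) i ≤ f (M x) i)
    (ht2 : ∀ i, ∀ x ∈ G, t i ∉ M x → M x = M (t i))
    (hfreq : ∀ x ∈ G, A.card ≤ 2 * (A.filter (fun S => x ∉ S)).card) :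
    ∀ x ∈ G, ∃ i, M x = M (t i) := by
  classical
  have hMx : ∀ x, x ∉ M x := fun x => (hM x (M x) (hMA x)).mpr subset_rfl
  set a : Finset ℕ → Finset (Fin 4) := fun S => univ.filter (fun i => t i ∉ S) with ha
  have hmem : ∀ S i, i ∈ a S ↔ t i ∉ S := by intro S i; simp [ha]
  -- the members of `A` avoiding `t i` have small `i`-th coordinate
  have hco : ∀ i, ∀ S ∈ A, t i ∉ S → ∀ x ∈ G, f S i ≤ f (M x) i := by
    intro i S hS hi x hx
    have h1 : S ⊆ M (t i) := (hM _ S hS).mp hi
    exact ((hf S hS _ (hMA _)).mp h1 i).trans (ht1 i x hx)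
  -- the set of the `M x` different from the `M (t i)`
  set T : Finset (Finset ℕ) := univ.image (fun i => M (t i)) with hT
  set K : Finset (Finset ℕ) := (G.image M) \ T with hK
  have hKT : ∀ P ∈ K, ∀ i, P ≠ M (t i) := by
    intro P hP i h
    rw [hK, mem_sdiff] at hP
    exact hP.2 (by rw [h, hT]; exact mem_image_of_mem _ (mem_univ i))
  -- the classes
  set C : Fin 4 → Finset (Finset ℕ) := fun i => A.filter (fun S => t i ∈ S ∧ ∀ l, l ≠ i → t l ∉ S)
    with hC
  have hCmem : ∀ i S, S ∈ C i ↔ S ∈ A ∧ t i ∈ S ∧ ∀ l, l ≠ i → t l ∉ S := by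
    intro i S; simp [hC]
  have hchain : ∀ i, ∀ S ∈ C i, ∀ S' ∈ C i, f S i ≤ f S' i → S ⊆ S' := by
    intro i S hS S' hS' hle x hx
    rw [hCmem] at hS hS'
    by_contra hx'
    have hxG : x ∈ G := hGtop S hS.1 hx
    have h1 : S' ⊆ M x := (hM x S' hS'.1).mp hx'
    have h2 : S ⊆ M x := by
      rw [hf S hS.1 _ (hMA x)]
      intro l
      by_cases hl : l = i
      · subst hl
        exact hle.trans ((hf S' hS'.1 _ (hMA x)).mp h1 l)
      · exact hco l S hS.1 (hS.2.2 l hl) x hxG
    exact ((hM x S hS.1).mpr h2) hx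
  -- in a non-minimal member of a class there is an element outside all smaller ones
  have hxi : ∀ i, ∀ S ∈ C i, (∃ S' ∈ C i, S' ⊂ S) →
      ∃ x ∈ S, ∀ S' ∈ C i, S' ⊂ S → x ∉ S' := by
    intro i S hS hex
    set B := (C i).filter (fun S' => S' ⊂ S) with hB
    have hBne : B.Nonempty := by
      obtain ⟨S', hS', hlt⟩ := hex
      exact ⟨S', by rw [hB, mem_filter]; exact ⟨hS', hlt⟩⟩
    obtain ⟨P, hP, hPmax⟩ := Finset.exists_max_image B (fun S' => f S' i) hBne
    rw [hB, mem_filter] at hP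
    obtain ⟨x, hxS, hxP⟩ := Finset.exists_of_ssubset hP.2
    refine ⟨x, hxS, ?_⟩
    intro S' hS' hlt hx
    have h1 : f S' i ≤ f P i := hPmax S' (by rw [hB, mem_filter]; exact ⟨hS', hlt⟩)
    exact hxP (hchain i S' hS' P hP.1 h1 hx)
  set N : Fin 4 → Finset (Finset ℕ) := fun i => (C i).filter (fun S => ∃ S' ∈ C i, S' ⊂ S) with hN
  have hNmem : ∀ i S, S ∈ N i ↔ S ∈ C i ∧ ∃ S' ∈ C i, S' ⊂ S := by
    intro i S; simp [hN]
  have hxi' : ∀ i, ∀ S : Finset ℕ, ∃ x : ℕ, S ∈ N i → x ∈ S ∧ ∀ S' ∈ C i, S' ⊂ S → x ∉ S' := by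
    intro i S
    by_cases h : S ∈ N i
    · obtain ⟨x, hx, hx'⟩ := hxi i S ((hNmem i S).mp h).1 ((hNmem i S).mp h).2
      exact ⟨x, fun _ => ⟨hx, hx'⟩⟩
    · exact ⟨0, fun h' => absurd h' h⟩
  choose ξ hξ using hxi'
  set R : Fin 4 → Finset (Finset ℕ) := fun i => (N i).image (fun S => M (ξ i S)) with hR
  -- comparability in a class
  have hcomp : ∀ i, ∀ S ∈ C i, ∀ S' ∈ C i, S ≠ S' → S ⊂ S' ∨ S' ⊂ S := by
    intro i S hS S' hS' hne
    rcases le_total (f S i) (f S' i) with h | h
    · left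
      exact lt_of_le_of_ne (hchain i S hS S' hS' h) hne
    · right
      exact lt_of_le_of_ne (hchain i S' hS' S hS h) (Ne.symm hne)
  have hinj : ∀ i, Set.InjOn (fun S => M (ξ i S)) (N i : Set (Finset ℕ)) := by
    intro i S hS S' hS' he
    rw [mem_coe] at hS hS'
    by_contra hne
    simp only at he
    have key : ∀ P Q, P ∈ N i → Q ∈ N i → P ⊂ Q → M (ξ i P) ≠ M (ξ i Q) := by
      intro P Q hP hQ hlt hE
      have h1 : ξ i Q ∉ P := (hξ i Q hQ).2 P ((hNmem i P).mp hP).1 hlt
      have hPA : P ∈ A := ((hCmem i P).mp ((hNmem i P).mp hP).1).1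
      have h2 : P ⊆ M (ξ i Q) := (hM _ P hPA).mp h1
      rw [← hE] at h2
      exact ((hM _ P hPA).mpr h2) (hξ i P hP).1
    rcases hcomp i S ((hNmem i S).mp hS).1 S' ((hNmem i S').mp hS').1 hne with h | h
    · exact key S S' hS hS' h he
    · exact key S' S hS' hS h he.symm
  have hRcard : ∀ i, (R i).card = (N i).card := fun i => card_image_of_injOn (hinj i)
  have hCcard : ∀ i, (C i).card ≤ (R i).card + (if (C i).Nonempty then 1 else 0) := by
    intro i
    rw [hRcard]
    have h1 : (C i).card = (N i).card + ((C i).filter (fun S => ¬ ∃ S' ∈ C i, S' ⊂ S)).card := by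
      rw [hN]
      exact (card_filter_add_card_filter_not (s := C i) _).symm
    have h2 : ((C i).filter (fun S => ¬ ∃ S' ∈ C i, S' ⊂ S)).card ≤ 1 := by
      rw [card_le_one]
      intro S hS S' hS'
      rw [mem_filter] at hS hS'
      by_contra hne
      rcases hcomp i S hS.1 S' hS'.1 hne with h | h
      · exact hS'.2 ⟨S, hS.1, h⟩
      · exact hS.2 ⟨S', hS'.1, h⟩
    split_ifs with hne
    · omega
    · rw [not_nonempty_iff_eq_empty] at hne
      rw [hne]
      simp
  -- properties of `R`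
  have hR1 : ∀ i, ∀ P ∈ R i, ∃ S ∈ C i, S ⊆ P := by
    intro i P hP
    rw [hR] at hP
    simp only at hP
    obtain ⟨S, hS, rfl⟩ := mem_image.mp hP
    obtain ⟨S', hS', hlt⟩ := ((hNmem i S).mp hS).2
    refine ⟨S', hS', ?_⟩
    exact (hM _ S' ((hCmem i S').mp hS').1).mp ((hξ i S hS).2 S' hS' hlt)
  have hR3 : ∀ i, ∀ P ∈ R i, ∃ S ∈ C i, ¬ S ⊆ P := by
    intro i P hP
    rw [hR] at hP
    simp only at hP
    obtain ⟨S, hS, rfl⟩ := mem_image.mp hP
    refine ⟨S, ((hNmem i S).mp hS).1, ?_⟩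
    intro h
    exact ((hM _ S ((hCmem i S).mp ((hNmem i S).mp hS).1).1).mpr h) (hξ i S hS).1
  have hR2 : ∀ i, ∀ P ∈ R i, ∀ Q ∈ R i, P ≠ Q →
      (∃ S ∈ C i, S ⊆ P ∧ ¬ S ⊆ Q) ∨ (∃ S ∈ C i, S ⊆ Q ∧ ¬ S ⊆ P) := by
    intro i P hP Q hQ hne
    rw [hR] at hP hQ
    simp only at hP hQ
    obtain ⟨S, hS, rfl⟩ := mem_image.mp hP
    obtain ⟨S', hS', rfl⟩ := mem_image.mp hQ
    have hSS : S ≠ S' := fun h => hne (by rw [h])
    have key : ∀ P Q, P ∈ N i → Q ∈ N i → P ⊂ Q → P ∈ C i ∧ P ⊆ M (ξ i Q) ∧ ¬ P ⊆ M (ξ i P) := by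
      intro P Q hP hQ hlt
      have h1 : ξ i Q ∉ P := (hξ i Q hQ).2 P ((hNmem i P).mp hP).1 hlt
      have hPA : P ∈ A := ((hCmem i P).mp ((hNmem i P).mp hP).1).1
      refine ⟨((hNmem i P).mp hP).1, (hM _ P hPA).mp h1, ?_⟩
      intro h
      exact ((hM _ P hPA).mpr h) (hξ i P hP).1
    rcases hcomp i S ((hNmem i S).mp hS).1 S' ((hNmem i S').mp hS').1 hSS with h | h
    · right
      exact ⟨S, (key S S' hS hS' h).1, (key S S' hS hS' h).2.1, (key S S' hS hS' h).2.2⟩
    · left
      exact ⟨S', (key S' S hS' hS h).1, (key S' S hS' hS h).2.1, (key S' S hS' hS h).2.2⟩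
  have hRK : ∀ i, R i ⊆ K := by
    intro i P hP
    have hP' := hP
    rw [hR] at hP
    simp only at hP
    obtain ⟨S, hS, rfl⟩ := mem_image.mp hP
    have hSC := ((hNmem i S).mp hS).1
    have hSA := ((hCmem i S).mp hSC)
    rw [hK, mem_sdiff]
    refine ⟨mem_image_of_mem _ (hGtop S hSA.1 (hξ i S hS).1), ?_⟩
    intro hmT
    rw [hT] at hmT
    obtain ⟨l, _, hl⟩ := mem_image.mp hmT
    by_cases hli : l = i
    · subst hli
      obtain ⟨S', hS', hsub⟩ := hR1 l _ hP'
      rw [← hl] at hsub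
      exact ((hM _ S' ((hCmem l S').mp hS').1).mpr hsub) ((hCmem l S').mp hS').2.1
    · have h1 : S ⊆ M (t l) := (hM _ S hSA.1).mp (hSA.2.2 l hli)
      rw [hl] at h1
      exact ((hM _ S hSA.1).mpr h1) (hξ i S hS).1
  -- the extra members
  set E : Fin 4 → Finset (Finset ℕ) := fun l => K.filter (fun P => ∀ m, m ≠ l → P ∈ R m) with hE
  have hEmem : ∀ l P, P ∈ E l ↔ P ∈ K ∧ ∀ m, m ≠ l → P ∈ R m := by
    intro l P; simp [hE]
  have hother : ∀ l : Fin 4, ∃ m : Fin 4, m ≠ l := by decide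
  have haE : ∀ l, ∀ P ∈ E l, meet A (M (t l)) P ∈ A ∧ a (meet A (M (t l)) P) = {l} := by
    intro l P hP
    rw [hEmem] at hP
    have hsub : ∀ m, m ≠ l → ∃ S ∈ C m, S ⊆ meet A (M (t l)) P ∧ S ∈ A ∧ S ⊆ M (t l) ∧ S ⊆ P := by
      intro m hm
      obtain ⟨S, hS, hSP⟩ := hR1 m P (hP.2 m hm)
      have hSA := (hCmem m S).mp hS
      have h1 : S ⊆ M (t l) := (hM _ S hSA.1).mp (hSA.2.2 l (Ne.symm hm))
      exact ⟨S, hS, le_meet hSA.1 h1 hSP, hSA.1, h1, hSP⟩
    obtain ⟨m₀, hm₀⟩ := hother l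
    obtain ⟨S₀, _, _, hS₀A, hS₀1, hS₀2⟩ := hsub m₀ hm₀
    have hEA : meet A (M (t l)) P ∈ A := meet_mem hU hS₀A hS₀1 hS₀2
    refine ⟨hEA, ?_⟩
    ext m
    rw [hmem, mem_singleton]
    constructor
    · intro h
      by_contra hne
      obtain ⟨S, hS, hSE, _⟩ := hsub m hne
      exact h (hSE ((hCmem m S).mp hS).2.1)
    · rintro rfl
      intro h
      exact hMx _ (meet_left A _ _ h)
  have hEinj : ∀ l, Set.InjOn (fun P => meet A (M (t l)) P) (E l : Set (Finset ℕ)) := by
    intro l P hP Q hQ he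
    rw [mem_coe, hEmem] at hP hQ
    by_contra hne
    simp only at he
    obtain ⟨m, hm⟩ := hother l
    rcases hR2 m P (hP.2 m hm) Q (hQ.2 m hm) hne with ⟨S, hS, h1, h2⟩ | ⟨S, hS, h1, h2⟩
    · have hSA := (hCmem m S).mp hS
      have h3 : S ⊆ M (t l) := (hM _ S hSA.1).mp (hSA.2.2 l (Ne.symm hm))
      have h4 := le_meet hSA.1 h3 h1
      rw [he] at h4
      exact h2 (h4.trans (meet_right A _ _))
    · have hSA := (hCmem m S).mp hS
      have h3 : S ⊆ M (t l) := (hM _ S hSA.1).mp (hSA.2.2 l (Ne.symm hm))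
      have h4 := le_meet hSA.1 h3 h1
      rw [← he] at h4
      exact h2 (h4.trans (meet_right A _ _))
  have hMt : ∀ l, (C l).Nonempty → a (M (t l)) = {l} := by
    intro l hne
    obtain ⟨S, hS⟩ := hne
    have hSA := (hCmem l S).mp hS
    ext m
    rw [hmem, mem_singleton]
    constructor
    · intro h
      by_contra hml
      have h1 := ht2 m (t l) (htG l) h
      have h2 : S ⊆ M (t m) := (hM _ S hSA.1).mp (hSA.2.2 m hml)
      rw [← h1] at h2
      exact ((hM _ S hSA.1).mpr h2) hSA.2.1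
    · rintro rfl
      exact hMx _
  have hc1l : ∀ l, (E l).card + (if (C l).Nonempty then 1 else 0) ≤
      (A.filter (fun S => a S = {l})).card := by
    intro l
    rw [← card_image_of_injOn (hEinj l)]
    by_cases hne : (C l).Nonempty
    · rw [if_pos hne]
      have hnot : M (t l) ∉ (E l).image (fun P => meet A (M (t l)) P) := by
        intro h
        obtain ⟨P, hP, he⟩ := mem_image.mp h
        rw [hEmem] at hP
        obtain ⟨m, hm⟩ := hother l
        obtain ⟨S, hS, hns⟩ := hR3 m P (hP.2 m hm)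
        have hSA := (hCmem m S).mp hS
        have h3 : S ⊆ M (t l) := (hM _ S hSA.1).mp (hSA.2.2 l (Ne.symm hm))
        rw [← he] at h3
        exact hns (h3.trans (meet_right A _ _))
      rw [← card_insert_of_notMem hnot]
      apply card_le_card
      intro Q hQ
      rw [mem_filter]
      rcases mem_insert.mp hQ with rfl | hQ
      · exact ⟨hMA _, hMt l hne⟩
      · obtain ⟨P, hP, rfl⟩ := mem_image.mp hQ
        exact haE l P hP
    · rw [if_neg hne, add_zero]
      apply card_le_card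
      intro Q hQ
      rw [mem_filter]
      obtain ⟨P, hP, rfl⟩ := mem_image.mp hQ
      exact haE l P hP
  -- class of the sets that contain all `t i`
  have hc0 : K.card + 1 ≤ (A.filter (fun S => a S = ∅)).card := by
    have hGK : G ∉ K := by
      intro h
      rw [hK, mem_sdiff] at h
      obtain ⟨x, hx, he⟩ := mem_image.mp h.1
      exact hMx x (he ▸ hx)
    rw [← card_insert_of_notMem hGK]
    apply card_le_card
    intro Q hQ
    rw [mem_filter]
    rcases mem_insert.mp hQ with rfl | hQ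
    · refine ⟨hG, ?_⟩
      rw [eq_empty_iff_forall_notMem]
      intro i hi
      exact ((hmem _ i).mp hi) (htG i)
    · have hQ' := hQ
      rw [hK, mem_sdiff] at hQ
      obtain ⟨x, hx, rfl⟩ := mem_image.mp hQ.1
      refine ⟨hMA x, ?_⟩
      rw [eq_empty_iff_forall_notMem]
      intro i hi
      exact hKT _ hQ' i (ht2 i x hx ((hmem _ i).mp hi))
  -- class of the sets avoiding all `t i`
  have hc4 : (A.filter (fun S => a S = univ)).card ≤ 1 := by
    rw [card_le_one]
    have key : ∀ S ∈ A.filter (fun S => a S = univ), S = ∅ := by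
      intro S hS
      rw [mem_filter] at hS
      rw [eq_empty_iff_forall_notMem]
      intro x hx
      have hxG := hGtop S hS.1 hx
      have h1 : S ⊆ M x := by
        rw [hf S hS.1 _ (hMA x)]
        intro i
        have hi : t i ∉ S := by rw [← hmem, hS.2]; exact mem_univ i
        exact hco i S hS.1 hi x hxG
      exact ((hM x S hS.1).mpr h1) hx
    intro S hS S' hS'
    rw [key S hS, key S' hS']
  -- classes of the sets avoiding three of the `t i`
  have hCa : ∀ i, C i = A.filter (fun S => a S = {i}ᶜ) := by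
    intro i
    ext S
    rw [hCmem, mem_filter]
    constructor
    · rintro ⟨h1, h2, h3⟩
      refine ⟨h1, ?_⟩
      ext l
      rw [hmem, mem_compl, mem_singleton]
      constructor
      · rintro h rfl
        exact h h2
      · intro h
        exact h3 l h
    · rintro ⟨h1, h2⟩
      refine ⟨h1, ?_, ?_⟩
      · by_contra h
        have : i ∈ a S := (hmem S i).mpr h
        rw [h2, mem_compl, mem_singleton] at this
        exact this rfl
      · intro l hl
        rw [← hmem, h2, mem_compl, mem_singleton]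
        exact hl
  -- `r` and `e`
  have hsumR : ∑ i, (R i).card = ∑ P ∈ K, (univ.filter (fun i => P ∈ R i)).card := by
    have h1 : ∀ i, (R i).card = ∑ P ∈ K, if P ∈ R i then 1 else 0 := by
      intro i
      rw [← card_filter]
      congr 1
      ext P
      rw [mem_filter]
      exact ⟨fun h => ⟨hRK i h, h⟩, fun h => h.2⟩
    simp_rw [h1]
    rw [sum_comm]
    refine sum_congr rfl fun P _ => ?_
    rw [card_filter]
  have hsumE : ∑ l, (E l).card = ∑ P ∈ K, (univ.filter (fun l => ∀ m, m ≠ l → P ∈ R m)).card := by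
    have h1 : ∀ l, (E l).card = ∑ P ∈ K, if (∀ m, m ≠ l → P ∈ R m) then 1 else 0 := by
      intro l
      rw [← card_filter]
    simp_rw [h1]
    rw [sum_comm]
    refine sum_congr rfl fun P _ => ?_
    rw [card_filter]
  have hre : ∑ i, (R i).card ≤ 2 * K.card + ∑ l, (E l).card := by
    rw [hsumR, hsumE, mul_comm, ← smul_eq_mul, ← sum_const, ← sum_add_distrib]
    refine sum_le_sum fun P _ => ?_
    have := count_le (fun i => decide (P ∈ R i))
    simpa using this
  -- final computation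
  have hsumC : ∑ i, (C i).card ≤ ∑ i, (R i).card + ∑ i, (if (C i).Nonempty then 1 else 0) := by
    rw [← sum_add_distrib]
    exact sum_le_sum fun i _ => hCcard i
  have hsum1 : ∑ l, (E l).card + ∑ l, (if (C l).Nonempty then 1 else 0) ≤
      ∑ l, (A.filter (fun S => a S = {l})).card := by
    rw [← sum_add_distrib]
    exact sum_le_sum fun l _ => hc1l l
  -- weights
  have hw : ∀ S ∈ A, (a S).card + 2 * (if a S = ∅ then 1 else 0) +
      (∑ l : Fin 4, if a S = {l} then 1 else 0) =
      2 + (∑ l : Fin 4, if a S = {l}ᶜ then 1 else 0) + 2 * (if a S = univ then 1 else 0) := by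
    intro S _
    generalize a S = B
    revert B
    decide
  have hfin : ∑ S ∈ A, (a S).card + 2 * (A.filter (fun S => a S = ∅)).card +
      ∑ l, (A.filter (fun S => a S = {l})).card =
      2 * A.card + ∑ l, (A.filter (fun S => a S = {l}ᶜ)).card +
        2 * (A.filter (fun S => a S = univ)).card := by
    have h := sum_congr rfl hw
    rw [sum_add_distrib, sum_add_distrib, sum_add_distrib, sum_add_distrib, ← mul_sum, ← mul_sum,
      ← card_filter, ← card_filter, sum_const, smul_eq_mul, mul_comm A.card 2, sum_comm,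
      sum_comm (s := A)] at h
    simp_rw [← card_filter] at h
    exact h
  simp_rw [← hCa] at hfin
  -- frequencies
  have hsum : ∑ S ∈ A, (a S).card = ∑ i : Fin 4, (A.filter (fun S => t i ∉ S)).card := by
    rw [ha]
    simp_rw [card_filter]
    rw [sum_comm]
  have h4 : ∀ i, A.card ≤ 2 * (A.filter (fun S => t i ∉ S)).card := fun i => hfreq (t i) (htG i)
  have hle : ∑ S ∈ A, (a S).card ≤ 2 * A.card := by omega
  have hge : 2 * A.card ≤ ∑ S ∈ A, (a S).card := by
    rw [hsum, Fin.sum_univ_four]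
    have := h4 0
    have := h4 1
    have := h4 2
    have := h4 3
    omega
  have hti : ∀ i, 2 * (A.filter (fun S => t i ∉ S)).card ≤ A.card := by
    rw [hsum, Fin.sum_univ_four] at hle
    have h0 := h4 0
    have h1 := h4 1
    have h2 := h4 2
    have h3 := h4 3
    intro i
    fin_cases i
    · change 2 * (A.filter (fun S => t 0 ∉ S)).card ≤ A.card
      omega
    · change 2 * (A.filter (fun S => t 1 ∉ S)).card ≤ A.card
      omega
    · change 2 * (A.filter (fun S => t 2 ∉ S)).card ≤ A.card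
      omega
    · change 2 * (A.filter (fun S => t 3 ∉ S)).card ≤ A.card
      omega
  -- equalities
  have hre' : ∑ i, (R i).card = 2 * K.card + ∑ l, (E l).card := by omega
  have hsum1' : ∑ l, ((E l).card + (if (C l).Nonempty then 1 else 0)) =
      ∑ l, (A.filter (fun S => a S = {l})).card := by
    rw [sum_add_distrib]
    omega
  have hc0' : (A.filter (fun S => a S = ∅)).card ≤ K.card + 1 := by omega
  have hbP : ∀ P ∈ K, (univ.filter (fun i => P ∈ R i)).card =
      2 + (univ.filter (fun l => ∀ m, m ≠ l → P ∈ R m)).card := by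
    rw [hsumR, hsumE, mul_comm, ← smul_eq_mul, ← sum_const, ← sum_add_distrib] at hre'
    exact (sum_eq_sum_iff_of_le (fun P _ => by
      have := count_le (fun i => decide (P ∈ R i))
      simpa using this)).mp hre'
  have hFcard : ∀ l, (E l).card + (if (C l).Nonempty then 1 else 0) =
      (A.filter (fun S => a S = {l})).card := fun l =>
    (sum_eq_sum_iff_of_le (fun l _ => hc1l l)).mp hsum1' l (mem_univ l)
  have hF : ∀ l, ∀ S ∈ A, a S = {l} → S = M (t l) ∨ ∃ P ∈ E l, S = meet A (M (t l)) P := by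
    intro l S hS haS
    have hsub : (E l).image (fun P => meet A (M (t l)) P) ⊆ A.filter (fun S => a S = {l}) := by
      intro Q hQ
      rw [mem_filter]
      obtain ⟨P, hP, rfl⟩ := mem_image.mp hQ
      exact haE l P hP
    have hSm : S ∈ A.filter (fun S => a S = {l}) := mem_filter.mpr ⟨hS, haS⟩
    by_cases hne : (C l).Nonempty
    · have hcard := hFcard l
      rw [if_pos hne, ← card_image_of_injOn (hEinj l)] at hcard
      have hnot : M (t l) ∉ (E l).image (fun P => meet A (M (t l)) P) := by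
        intro h
        obtain ⟨P, hP, he⟩ := mem_image.mp h
        rw [hEmem] at hP
        obtain ⟨m, hm⟩ := hother l
        obtain ⟨S, hS, hns⟩ := hR3 m P (hP.2 m hm)
        have hSA := (hCmem m S).mp hS
        have h3 : S ⊆ M (t l) := (hM _ S hSA.1).mp (hSA.2.2 l (Ne.symm hm))
        rw [← he] at h3
        exact hns (h3.trans (meet_right A _ _))
      rw [← card_insert_of_notMem hnot] at hcard
      have hsub' : insert (M (t l)) ((E l).image (fun P => meet A (M (t l)) P)) ⊆
          A.filter (fun S => a S = {l}) := by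
        intro Q hQ
        rcases mem_insert.mp hQ with rfl | hQ
        · exact mem_filter.mpr ⟨hMA _, hMt l hne⟩
        · exact hsub hQ
      have heq := eq_of_subset_of_card_le hsub' hcard.symm.le
      rw [← heq, mem_insert, mem_image] at hSm
      rcases hSm with h | ⟨P, hP, h⟩
      · exact Or.inl h
      · exact Or.inr ⟨P, hP, h.symm⟩
    · have hcard := hFcard l
      rw [if_neg hne, add_zero, ← card_image_of_injOn (hEinj l)] at hcard
      have heq := eq_of_subset_of_card_le hsub hcard.symm.le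
      rw [← heq, mem_image] at hSm
      obtain ⟨P, hP, h⟩ := hSm
      exact Or.inr ⟨P, hP, h.symm⟩
  have hGK : G ∉ K := by
    intro h
    rw [hK, mem_sdiff] at h
    obtain ⟨x, hx, he⟩ := mem_image.mp h.1
    exact hMx x (he ▸ hx)
  have h0 : ∀ S ∈ A, a S = ∅ → S = G ∨ S ∈ K := by
    intro S hS haS
    have hsub : insert G K ⊆ A.filter (fun S => a S = ∅) := by
      intro Q hQ
      rw [mem_filter]
      rcases mem_insert.mp hQ with rfl | hQ
      · refine ⟨hG, ?_⟩
        rw [eq_empty_iff_forall_notMem]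
        intro i hi
        exact ((hmem _ i).mp hi) (htG i)
      · have hQ' := hQ
        rw [hK, mem_sdiff] at hQ
        obtain ⟨x, hx, rfl⟩ := mem_image.mp hQ.1
        refine ⟨hMA x, ?_⟩
        rw [eq_empty_iff_forall_notMem]
        intro i hi
        exact hKT _ hQ' i (ht2 i x hx ((hmem _ i).mp hi))
    have heq := eq_of_subset_of_card_le hsub (by rw [card_insert_of_notMem hGK]; exact hc0')
    have hSm : S ∈ A.filter (fun S => a S = ∅) := mem_filter.mpr ⟨hS, haS⟩
    rw [← heq, mem_insert] at hSm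
    exact hSm
  -- now suppose that `K` is not empty
  intro x₀ hx₀
  by_contra hcon
  push Not at hcon
  have hKne : K.Nonempty := by
    refine ⟨M x₀, ?_⟩
    rw [hK, mem_sdiff]
    refine ⟨mem_image_of_mem _ hx₀, ?_⟩
    intro h
    rw [hT] at h
    obtain ⟨i, _, hi⟩ := mem_image.mp h
    exact hcon i hi.symm
  obtain ⟨P, hPK, hPmin⟩ := Finset.exists_min_image K (fun Q => Q.card) hKne
  have hPK' := hPK
  rw [hK, mem_sdiff] at hPK'
  obtain ⟨x, hxG, hxP⟩ := mem_image.mp hPK'.1
  have hPA : P ∈ A := hxP ▸ hMA x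
  have havoid : ∀ S ∈ A, x ∉ S ↔ S ⊆ P := by
    intro S hS
    rw [hM x S hS, hxP]
  have hcP := hbP P hPK
  -- combinatorics of the set of indices
  have hdec : ∀ b : Fin 4 → Bool, (univ.filter (fun i => b i = true)).card =
      2 + (univ.filter (fun l => ∀ m, m ≠ l → b m = true)).card →
      (∃ j, b j = false) ∧ (∃ m m', m ≠ m' ∧ b m = true ∧ b m' = true) := by
    decide
  obtain ⟨⟨j, hj⟩, m₁, m₂, hm12, hm1, hm2⟩ := hdec (fun i => decide (P ∈ R i)) (by simpa using hcP)
  have hj' : P ∉ R j := by simpa using hj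
  have hm1' : P ∈ R m₁ := by simpa using hm1
  have hm2' : P ∈ R m₂ := by simpa using hm2
  have hex2 : ∀ l, ∃ m, m ≠ l ∧ P ∈ R m := by
    intro l
    by_cases h : m₁ = l
    · exact ⟨m₂, fun h' => hm12 (h.trans h'.symm), hm2'⟩
    · exact ⟨m₁, h, hm1'⟩
  -- the key claim
  have claim : ∀ S ∈ A, S ⊆ P → t j ∈ S → a S = ∅ := by
    intro S hS hSP hjS
    by_contra hB
    have hjB : j ∉ a S := by
      rw [hmem]
      exact fun h => h hjS
    obtain ⟨l, hlB, hl⟩ := dec2 (fun i => decide (P ∈ R i)) (a S) j ⟨m₁, m₂, hm12, hm1, hm2⟩ hj hjB hB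
    have hlS : t l ∉ S := (hmem S l).mp hlB
    have hSl : S ⊆ M (t l) := (hM _ S hS).mp hlS
    set Q := meet A (M (t l)) P with hQ
    have hSQ : S ⊆ Q := le_meet hS hSl hSP
    have hQA : Q ∈ A := meet_mem hU hS hSl hSP
    have hlj : l ≠ j := by
      rintro rfl
      exact hjB hlB
    have haQ : a Q = {l} := by
      ext m
      rw [hmem, mem_singleton]
      constructor
      · intro h
        by_contra hne
        by_cases hmB : m ∈ a S
        · have hPm : P ∈ R m := by simpa using hl m hmB hne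
          obtain ⟨S₁, hS₁, hS₁P⟩ := hR1 m P hPm
          have hSA := (hCmem m S₁).mp hS₁
          have h1 : S₁ ⊆ M (t l) := (hM _ S₁ hSA.1).mp (hSA.2.2 l (Ne.symm hne))
          exact h (le_meet hSA.1 h1 hS₁P hSA.2.1)
        · rw [hmem, not_not] at hmB
          exact h (hSQ hmB)
      · rintro rfl
        intro h
        exact hMx _ (meet_left A _ _ h)
    obtain ⟨m, hml, hPm⟩ := hex2 l
    rcases hF l Q hQA haQ with h | ⟨P', hP', h⟩
    · obtain ⟨S₁, hS₁, hns⟩ := hR3 m P hPm
      have hSA := (hCmem m S₁).mp hS₁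
      have h3 : S₁ ⊆ M (t l) := (hM _ S₁ hSA.1).mp (hSA.2.2 l (Ne.symm hml))
      rw [← h] at h3
      exact hns (h3.trans (meet_right A _ _))
    · rw [hEmem] at hP'
      have hne : P ≠ P' := by
        rintro rfl
        exact hj' (hP'.2 j hlj.symm)
      rcases hR2 m P hPm P' (hP'.2 m hml) hne with ⟨S₁, hS₁, h1, h2⟩ | ⟨S₁, hS₁, h1, h2⟩
      · have hSA := (hCmem m S₁).mp hS₁
        have h3 : S₁ ⊆ M (t l) := (hM _ S₁ hSA.1).mp (hSA.2.2 l (Ne.symm hml))
        have h4 := le_meet hSA.1 h3 h1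
        rw [← hQ, h] at h4
        exact h2 (h4.trans (meet_right A _ _))
      · have hSA := (hCmem m S₁).mp hS₁
        have h3 : S₁ ⊆ M (t l) := (hM _ S₁ hSA.1).mp (hSA.2.2 l (Ne.symm hml))
        have h4 := le_meet hSA.1 h3 h1
        rw [← h] at h4
        exact h2 (h4.trans (meet_right A _ _))
  -- comparing the frequencies of `x` and `t j`
  have hxj : (A.filter (fun S => x ∉ S)).card ≤ 1 + (A.filter (fun S => x ∉ S ∧ t j ∉ S)).card := by
    have hsub : A.filter (fun S => x ∉ S) ⊆ insert P (A.filter (fun S => x ∉ S ∧ t j ∉ S)) := by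
      intro S hS
      rw [mem_filter] at hS
      rw [mem_insert, mem_filter]
      by_cases hjS : t j ∈ S
      · left
        have hSP := (havoid S hS.1).mp hS.2
        rcases h0 S hS.1 (claim S hS.1 hSP hjS) with h | h
        · exact absurd (h ▸ hxG) hS.2
        · exact eq_of_subset_of_card_le hSP (hPmin S h)
      · exact Or.inr ⟨hS.1, hS.2, hjS⟩
    refine (card_le_card hsub).trans ((card_insert_le _ _).trans ?_)
    omega
  have hjx : (A.filter (fun S => x ∉ S ∧ t j ∉ S)).card + 2 ≤ (A.filter (fun S => t j ∉ S)).card := by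
    obtain ⟨S₁, hS₁, hn1⟩ := hR3 m₁ P hm1'
    obtain ⟨S₂, hS₂, hn2⟩ := hR3 m₂ P hm2'
    have hA1 := (hCmem m₁ S₁).mp hS₁
    have hA2 := (hCmem m₂ S₂).mp hS₂
    have hj1 : j ≠ m₁ := by
      rintro rfl
      exact hj' hm1'
    have hj2 : j ≠ m₂ := by
      rintro rfl
      exact hj' hm2'
    have hne12 : S₁ ≠ S₂ := by
      rintro rfl
      exact hA2.2.2 m₁ hm12 hA1.2.1
    have hn1' : S₁ ∉ A.filter (fun S => x ∉ S ∧ t j ∉ S) := by
      intro h
      rw [mem_filter] at h
      exact hn1 ((havoid S₁ hA1.1).mp h.2.1)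
    have hn2' : S₂ ∉ A.filter (fun S => x ∉ S ∧ t j ∉ S) := by
      intro h
      rw [mem_filter] at h
      exact hn2 ((havoid S₂ hA2.1).mp h.2.1)
    have hnn : S₁ ∉ insert S₂ (A.filter (fun S => x ∉ S ∧ t j ∉ S)) := by
      rw [mem_insert]
      rintro (h | h)
      · exact hne12 h
      · exact hn1' h
    have hc : (insert S₁ (insert S₂ (A.filter (fun S => x ∉ S ∧ t j ∉ S)))).card =
        (A.filter (fun S => x ∉ S ∧ t j ∉ S)).card + 2 := by
      rw [card_insert_of_notMem hnn, card_insert_of_notMem hn2']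
    rw [← hc]
    apply card_le_card
    intro S hS
    rw [mem_filter]
    rcases mem_insert.mp hS with rfl | hS
    · exact ⟨hA1.1, hA1.2.2 j hj1⟩
    rcases mem_insert.mp hS with rfl | hS
    · exact ⟨hA2.1, hA2.2.2 j hj2⟩
    · rw [mem_filter] at hS
      exact ⟨hS.1, hS.2.2⟩
  have hx := hfreq x hxG
  have := hti j
  omega


/-- A family of subsets of a set `G` with at most four points that contains `G`, all `G ∖ {x}`, is
union-closed and has no frequency above one half is the power set. -/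
theorem small (G : Finset ℕ) (A : Finset (Finset ℕ)) (hA : ∀ S ∈ A, S ⊆ G)
    (hU : ∀ X ∈ A, ∀ Y ∈ A, X ∪ Y ∈ A) (hG : G ∈ A) (hco : ∀ x ∈ G, G.erase x ∈ A)
    (hcard : G.card ≤ 4) (hfreq : ∀ x ∈ G, 2 * (A.filter (fun S => x ∈ S)).card ≤ A.card) :
    A = G.powerset := by
  classical
  have hsub : A ⊆ G.powerset := fun S hS => mem_powerset.mpr (hA S hS)
  -- the weights
  have htot : ∑ S ∈ G.powerset, (2 * (S.card : ℤ) - G.card) = 0 := by
    have h1 : ∑ S ∈ G.powerset, (2 * (S.card : ℤ) - G.card) =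
        ∑ S ∈ G.powerset, (2 * ((G \ S).card : ℤ) - G.card) := by
      refine sum_nbij' (fun S => G \ S) (fun S => G \ S) ?_ ?_ ?_ ?_ ?_
      · intro S _
        exact mem_powerset.mpr sdiff_subset
      · intro S _
        exact mem_powerset.mpr sdiff_subset
      · intro S hS
        exact Finset.sdiff_sdiff_eq_self (mem_powerset.mp hS)
      · intro S hS
        exact Finset.sdiff_sdiff_eq_self (mem_powerset.mp hS)
      · intro S hS
        rw [Finset.sdiff_sdiff_eq_self (mem_powerset.mp hS)]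
    have h2 : ∑ S ∈ G.powerset, (2 * ((G \ S).card : ℤ) - G.card) =
        ∑ S ∈ G.powerset, -(2 * (S.card : ℤ) - G.card) := by
      refine sum_congr rfl fun S hS => ?_
      have := card_sdiff_add_card_eq_card (mem_powerset.mp hS)
      have h3 : ((G \ S).card : ℤ) + S.card = G.card := by exact_mod_cast this
      linarith
    rw [sum_neg_distrib] at h2
    linarith
  have hAle : ∑ S ∈ A, (2 * (S.card : ℤ) - G.card) ≤ 0 := by
    have h1 : ∑ S ∈ A, S.card = ∑ x ∈ G, (A.filter (fun S => x ∈ S)).card := by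
      simp_rw [card_filter]
      rw [sum_comm]
      refine sum_congr rfl fun S hS => ?_
      rw [← card_filter]
      congr 1
      ext x
      rw [mem_filter]
      exact ⟨fun h => ⟨hA S hS h, h⟩, fun h => h.2⟩
    have h2 : 2 * ∑ S ∈ A, S.card ≤ G.card * A.card := by
      rw [h1, mul_sum, ← smul_eq_mul (a := G.card), ← sum_const]
      exact sum_le_sum hfreq
    rw [sum_sub_distrib, ← mul_sum, sum_const, nsmul_eq_mul]
    have h3 : (2 : ℤ) * ∑ S ∈ A, (S.card : ℤ) ≤ G.card * A.card := by exact_mod_cast h2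
    linarith
  have hsplit : ∑ S ∈ G.powerset \ A, (2 * (S.card : ℤ) - G.card) +
      ∑ S ∈ A, (2 * (S.card : ℤ) - G.card) = 0 := by
    rw [sum_sdiff hsub, htot]
  have hBsmall : ∀ S ∈ G.powerset \ A, S.card + 2 ≤ G.card := by
    intro S hS
    rw [mem_sdiff, mem_powerset] at hS
    have h1 := card_le_card hS.1
    by_contra hlt
    have h2 : S ≠ G := by
      rintro rfl
      exact hS.2 hG
    have h3 : S ⊂ G := lt_of_le_of_ne hS.1 h2
    obtain ⟨x, hx, hxS⟩ := exists_of_ssubset h3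
    have h4 : S ⊆ G.erase x := by
      intro y hy
      rw [mem_erase]
      refine ⟨?_, hS.1 hy⟩
      rintro rfl
      exact hxS hy
    have h5 := card_erase_of_mem hx
    have h6 : S = G.erase x := eq_of_subset_of_card_le h4 (by omega)
    exact hS.2 (h6 ▸ hco x hx)
  have hBnonpos : ∀ S ∈ G.powerset \ A, (2 * (S.card : ℤ) - G.card) ≤ 0 := by
    intro S hS
    have := hBsmall S hS
    omega
  have hBzero : ∀ S ∈ G.powerset \ A, (2 * (S.card : ℤ) - G.card) = 0 := by
    have h1 : ∑ S ∈ G.powerset \ A, (2 * (S.card : ℤ) - G.card) = 0 :=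
      le_antisymm (sum_nonpos hBnonpos) (by linarith)
    exact (sum_eq_zero_iff_of_nonpos hBnonpos).mp h1
  have hB2 : ∀ S ∈ G.powerset \ A, S.card = 2 ∧ G.card = 4 := by
    intro S hS
    have h1 := hBsmall S hS
    have h2 := hBzero S hS
    omega
  refine Subset.antisymm hsub ?_
  intro S hS
  by_contra hSA
  have hSB : S ∈ G.powerset \ A := mem_sdiff.mpr ⟨hS, hSA⟩
  obtain ⟨h2, -⟩ := hB2 S hSB
  obtain ⟨x, y, hxy, rfl⟩ := card_eq_two.mp h2
  rw [mem_powerset] at hS
  have hsing : ∀ z ∈ G, {z} ∈ A := by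
    intro z hz
    by_contra hzA
    have := (hB2 {z} (mem_sdiff.mpr ⟨by simpa using hz, hzA⟩)).1
    simp at this
  have := hU _ (hsing x (hS (by simp))) _ (hsing y (hS (by simp)))
  apply hSA
  have he : ({x, y} : Finset ℕ) = {x} ∪ {y} := by
    ext z
    simp
  rw [he]
  exact this

/-- **Poonen's strict form of the union-closed sets conjecture** holds for families whose inclusion
order has dimension at most four. -/
theorem poonen (A : Finset (Finset ℕ)) (hAne : A.Nonempty)
    (hU : ∀ X ∈ A, ∀ Y ∈ A, X ∪ Y ∈ A)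
    (hsep : ∀ x ∈ A.sup id, ∀ y ∈ A.sup id, x ≠ y →
      ∃ S ∈ A, (x ∈ S ∧ y ∉ S) ∨ (y ∈ S ∧ x ∉ S))
    (hpow : A ≠ (A.sup id).powerset) (hdim : OrderDimLE A 4) :
    ∃ x ∈ A.sup id, 2 * (A.filter (fun S => x ∈ S)).card > A.card := by
  classical
  by_contra hcon
  push Not at hcon
  obtain ⟨f, hf⟩ := hdim
  set G : Finset ℕ := A.sup id with hGdef
  have hG : G ∈ A := sup_mem' hU A subset_rfl hAne
  have hGtop : ∀ S ∈ A, S ⊆ G := fun S hS => Finset.le_sup (f := id) hS
  have hsplit : ∀ x : ℕ, (A.filter (fun S => x ∈ S)).card + (A.filter (fun S => x ∉ S)).card =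
      A.card := fun x => card_filter_add_card_filter_not (s := A) _
  have hav : ∀ x ∈ G, A.card ≤ 2 * (A.filter (fun S => x ∉ S)).card := by
    intro x hx
    have h1 := hcon x hx
    have h2 := hsplit x
    omega
  have hApos : 0 < A.card := card_pos.mpr hAne
  have havne : ∀ x ∈ G, (A.filter (fun S => x ∉ S)).Nonempty := by
    intro x hx
    rw [← card_pos]
    have := hav x hx
    omega
  have hGne : G.Nonempty := by
    rw [nonempty_iff_ne_empty]
    intro h
    apply hpow
    rw [h]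
    ext S
    rw [mem_powerset, subset_empty]
    constructor
    · intro hS
      have := hGtop S hS
      rwa [h, subset_empty] at this
    · rintro rfl
      rw [← h]
      exact hG
  set M : ℕ → Finset ℕ := fun x => (A.filter (fun S => x ∉ S)).sup id with hMdef
  have hMA : ∀ x, M x ∈ A := by
    intro x
    by_cases hx : x ∈ G
    · exact sup_mem' hU _ (filter_subset _ _) (havne x hx)
    · have : A.filter (fun S => x ∉ S) = A := by
        rw [filter_eq_self]
        intro S hS h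
        exact hx (hGtop S hS h)
      rw [hMdef]
      simp only
      rw [this]
      exact hG
  have hM : ∀ x, ∀ S ∈ A, x ∉ S ↔ S ⊆ M x := by
    intro x S hS
    constructor
    · intro hx
      exact Finset.le_sup (f := id) (mem_filter.mpr ⟨hS, hx⟩)
    · intro hsub hx
      have h1 := hsub hx
      rw [hMdef] at h1
      simp only [mem_sup, mem_filter, id] at h1
      obtain ⟨S', hS', hx'⟩ := h1
      exact hS'.2 hx'
  have hex : ∀ i : Fin 4, ∃ x ∈ G, ∀ y ∈ G,
      toLex (f (M x) i, (M x).card) ≤ toLex (f (M y) i, (M y).card) := by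
    intro i
    exact Finset.exists_min_image G (fun x => toLex (f (M x) i, (M x).card)) hGne
  choose t htG htmin using hex
  have ht1 : ∀ i, ∀ x ∈ G, f (M (t i)) i ≤ f (M x) i := by
    intro i x hx
    have := htmin i x hx
    rw [Prod.Lex.toLex_le_toLex] at this
    rcases this with h | h
    · exact h.le
    · exact h.1.le
  have ht2 : ∀ i, ∀ x ∈ G, t i ∉ M x → M x = M (t i) := by
    intro i x hx h
    have hsub : M x ⊆ M (t i) := (hM _ _ (hMA x)).mp h
    have h1 : f (M x) i ≤ f (M (t i)) i := (hf _ (hMA x) _ (hMA _)).mp hsub i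
    have := htmin i x hx
    rw [Prod.Lex.toLex_le_toLex] at this
    rcases this with h2 | h2
    · simp only at h2
      omega
    · exact eq_of_subset_of_card_le hsub h2.2
  have hcount := counting A hU f hf G hG hGtop M hMA hM t htG ht1 ht2 hav
  -- the points are separated
  have hMinj : ∀ x ∈ G, ∀ y ∈ G, M x = M y → x = y := by
    intro x hx y hy h
    by_contra hne
    obtain ⟨S, hS, hor⟩ := hsep x hx y hy hne
    have h1 := hM x S hS
    have h2 := hM y S hS
    rw [h] at h1
    have h3 : x ∉ S ↔ y ∉ S := h1.trans h2.symm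
    rcases hor with ⟨h4, h5⟩ | ⟨h4, h5⟩
    · exact (h3.mpr h5) h4
    · exact (h3.mp h5) h4
  have hGt : G ⊆ univ.image t := by
    intro x hx
    obtain ⟨i, hi⟩ := hcount x hx
    rw [mem_image]
    exact ⟨i, mem_univ i, (hMinj x hx _ (htG i) hi).symm⟩
  have hGcard : G.card ≤ 4 := by
    refine (card_le_card hGt).trans (card_image_le.trans ?_)
    simp
  have hco : ∀ x ∈ G, G.erase x ∈ A := by
    intro x hx
    have h1 : M x = G.erase x := by
      apply Subset.antisymm
      · intro y hy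
        rw [mem_erase]
        refine ⟨?_, hGtop _ (hMA x) hy⟩
        rintro rfl
        exact ((hM y _ (hMA y)).mpr subset_rfl) hy
      · intro y hy
        rw [mem_erase] at hy
        by_contra hyM
        obtain ⟨i, hi⟩ := hcount y hy.2
        have hyt := hMinj y hy.2 _ (htG i) hi
        have h2 := ht2 i x hx (hyt ▸ hyM)
        exact hy.1 (hMinj y hy.2 x hx (hi.trans h2.symm))
    rw [← h1]
    exact hMA x
  exact hpow (small G A hGtop hU hG hco hGcard hcon)


end Pool.Agent.H200R3.Dim4
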