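import Mathlib
import Pool.Agent.H634R3.UC.Gold

set_option autoImplicit false

/-!
# Many abundant elements in union-closed families with few members

The entropy method, applied after removing a bounded set `X` of elements from the ground set (the
loss is at most one bit per removed element), to the members that are not the largest member
avoiding some element.
-/

namespace Pool.Agent.H200R3.Many

open Finset Real Pool.Agent.H117R2 Pool.Agent.H117R2.Gold Pool.Agent.H634R3.UC

theorem E2_le {a b : ℝ} (ha : 0 ≤ a) (hb : 0 ≤ b) : E2 a b ≤ (a + b) * log 2 := by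
  have h := perspective ha hb (one_pos : (0 : ℝ) < 1) (one_pos : (0 : ℝ) < 1)
  rw [log_one, mul_zero, mul_zero, add_zero, add_zero, one_add_one_eq_two] at h
  unfold E2
  linarith

theorem wt_E2_le (l : List ℕ) (A : Finset (Finset ℕ)) (i : ℕ) :
    wt E2 l A i ≤ A.card * log 2 := by
  induction l generalizing i A with
  | nil =>
    simp only [wt]
    have : 0 ≤ log 2 := (log_pos (by norm_num)).le
    positivity
  | cons g l ih =>
    cases i with
    | zero =>
      simp only [wt]
      rw [← card_av g A]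
      exact E2_le (by positivity) (by positivity)
    | succ i =>
      simp only [wt]
      have h0 := ih (av0 g A) i
      have h1 := ih (av1 g A) i
      rw [← card_av g A]
      linarith

/-- entropy inequality after removing the elements of `X` -/
theorem ent_many (A N : Finset (Finset ℕ)) (hNA : N ⊆ A)
    (huc : ∀ X ∈ A, ∀ Y ∈ A, X ∪ Y ∈ A) (X : Finset ℕ) {β : ℝ} (hβ : β ≤ 1)
    (hf : ∀ i ∈ A.sup id, i ∉ X → ((N.filter (fun S => i ∈ S)).card : ℝ) ≤ β * N.card) :
    q * (1 - β) * ((N.card : ℝ) ^ 2 * (log N.card - X.card * log 2)) ≤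
      (N.card : ℝ) ^ 2 * log A.card := by
  have hq : 0 < q := by have := q_lb; linarith
  set l := X.toList ++ (A.sup id \ X).toList with hl
  have hsep : ∀ S ∈ N, ∀ T ∈ N, (∀ g ∈ l, g ∈ S ↔ g ∈ T) → S = T := by
    intro S hS T hT h
    apply sep_aux A S (hNA hS) T (hNA hT)
    intro g hg
    apply h
    rw [hl, List.mem_append, mem_toList, mem_toList, mem_sdiff]
    rw [mem_toList] at hg
    tauto
  have hsum := sum_eta l N hsep
  have hmain := main_ineq (twoPointGold (fun _ _ => 0)) A l N N
    (fun X hX Y hY => huc X (hNA hX) Y (hNA hY))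
  have hent := ent_le (U := A) (f := conv N N) (fun S _ => conv_nonneg N N S)
  rw [sum_conv A N N (fun X hX Y hY => huc X (hNA hX) Y (hNA hY))] at hent
  have hlog2 : 0 < log 2 := log_pos (by norm_num)
  have hterm : ∀ i ∈ range l.length, (1 - β) * N.card *
      (wt E2 l N i - if i < X.card then (N.card : ℝ) * log 2 else 0) ≤ av l N i * wt E2 l N i := by
    intro i hi
    have hi' := mem_range.mp hi
    have hw := eta_nonneg l N i
    have hN0 : (0 : ℝ) ≤ (1 - β) * N.card := mul_nonneg (by linarith) (by positivity)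
    by_cases hiX : i < X.card
    · rw [if_pos hiX]
      have h1 := wt_E2_le l N i
      have h2 : (1 - β) * N.card * (wt E2 l N i - (N.card : ℝ) * log 2) ≤ 0 :=
        mul_nonpos_of_nonneg_of_nonpos hN0 (by linarith)
      have h3 : 0 ≤ av l N i * wt E2 l N i := mul_nonneg (av_nonneg l N i) hw
      linarith
    · rw [if_neg hiX, sub_zero]
      apply mul_le_mul_of_nonneg_right _ hw
      rw [av_eq l N i hi']
      have hmem : l[i] ∈ A.sup id \ X := by
        rw [← mem_toList]
        have h1 : X.toList.length ≤ i := by rw [length_toList]; omega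
        have h2 : l[i] = (A.sup id \ X).toList[i - X.toList.length]'(by
          rw [hl, List.length_append] at hi'
          omega) := by
          simp only [hl]
          exact List.getElem_append_right h1
        rw [h2]
        exact List.getElem_mem _
      rw [mem_sdiff] at hmem
      have h1 := hf l[i] hmem.1 hmem.2
      have h2 := card_av l[i] N
      unfold av0 av1 at h2
      linarith
  have hsum2 := sum_le_sum hterm
  rw [← mul_sum, sum_sub_distrib, hsum] at hsum2
  have hite : ∑ i ∈ range l.length, (if i < X.card then (N.card : ℝ) * log 2 else 0) ≤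
      X.card * ((N.card : ℝ) * log 2) := by
    rw [← sum_filter, sum_const, nsmul_eq_mul]
    apply mul_le_mul_of_nonneg_right _ (by positivity)
    have h1 : ((range l.length).filter (fun i => i < X.card)).card ≤ (range X.card).card := by
      apply card_le_card
      intro i hi
      rw [mem_filter] at hi
      exact mem_range.mpr hi.2
    rw [card_range] at h1
    exact_mod_cast h1
  have e1 : ∑ i ∈ range l.length, (av l N i * wt E2 l N i + av l N i * wt E2 l N i) =
      2 * ∑ i ∈ range l.length, av l N i * wt E2 l N i := by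
    rw [mul_sum]
    exact sum_congr rfl fun i _ => by ring
  rw [e1, zero_mul, sub_zero] at hmain
  have hN0 : (0 : ℝ) ≤ (1 - β) * N.card := mul_nonneg (by linarith) (by positivity)
  have h3 : (1 - β) * N.card * (N.card * log N.card - X.card * ((N.card : ℝ) * log 2)) ≤
      ∑ i ∈ range l.length, av l N i * wt E2 l N i :=
    (mul_le_mul_of_nonneg_left (by linarith) hN0).trans hsum2
  have h4 := mul_le_mul_of_nonneg_left h3 hq.le
  calc q * (1 - β) * ((N.card : ℝ) ^ 2 * (log N.card - X.card * log 2))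
      = q * ((1 - β) * N.card * (N.card * log N.card - X.card * ((N.card : ℝ) * log 2))) := by ring
    _ ≤ q * ∑ i ∈ range l.length, av l N i * wt E2 l N i := h4
    _ = q / 2 * (2 * ∑ i ∈ range l.length, av l N i * wt E2 l N i) := by ring
    _ ≤ _ := hmain.trans (hent.trans (le_of_eq (by ring)))

/-- Outside `X`, every element can be replaced by one lying in all but `1 + |X|` of the `Mx`. -/
theorem dom_many (A : Finset (Finset ℕ)) (huc : ∀ X ∈ A, ∀ Y ∈ A, X ∪ Y ∈ A) (he : ∅ ∈ A) :
    ∃ N ⊆ A, N.card + (types A).card = A.card ∧ A.sup id ∈ N ∧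
      ∀ X : Finset ℕ, ∀ y0 ∈ A.sup id, y0 ∉ X → ∃ y ∈ A.sup id, y ∉ X ∧
      (N.filter (fun S => y0 ∈ S)).card ≤ (N.filter (fun S => y ∈ S)).card ∧
      (types A).card + (N.filter (fun S => y ∈ S)).card ≤
        (A.filter (fun S => y ∈ S)).card + 1 + X.card := by
  have hall : ∀ x ∈ A.sup id, ∃ S ∈ A, x ∉ S := fun x _ => ⟨∅, he, notMem_empty x⟩
  set M := (A.sup id).image (Mx A) with hM
  have hMA : M ⊆ A := by
    intro S hS
    rw [hM, mem_image] at hS
    obtain ⟨x, hx, rfl⟩ := hS
    apply sup_mem_uc A huc _ (filter_subset _ _)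
    obtain ⟨S, hS, hxS⟩ := hall x hx
    exact ⟨S, mem_filter.mpr ⟨hS, hxS⟩⟩
  have hcard : M.card = (types A).card := by
    have h1 : M = (types A).image (fun C => (A \ C).sup id) := by
      rw [hM, types, image_image]
      apply image_congr
      intro x _
      simp only [Function.comp, Mx]
      congr 1
      ext S
      simp only [mem_filter, mem_sdiff]
      tauto
    rw [h1]
    apply card_image_of_injOn
    intro C hC C' hC' h
    rw [mem_coe, types, mem_image] at hC hC'
    obtain ⟨x, hx, rfl⟩ := hC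
    obtain ⟨y, hy, rfl⟩ := hC'
    apply Mx_eq_iff
    have e : ∀ x, (A \ A.filter (fun S => x ∈ S)) = A.filter (fun S => x ∉ S) := by
      intro x
      ext S
      simp only [mem_filter, mem_sdiff]
      tauto
    simp only [e] at h
    exact h
  refine ⟨A \ M, sdiff_subset, ?_, ?_, ?_⟩
  · rw [← hcard, card_sdiff_add_card_eq_card hMA]
  · rw [mem_sdiff]
    refine ⟨sup_mem_uc A huc A Subset.rfl ⟨∅, he⟩, ?_⟩
    intro h
    rw [hM, mem_image] at h
    obtain ⟨x, hx, h⟩ := h
    exact notMem_Mx A x (h ▸ hx)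
  · intro X y0 hy0 hy0X
    obtain ⟨y, hy, hmax⟩ := exists_max_image
      ((A.sup id).filter (fun y => y ∉ X ∧ A.filter (fun S => y0 ∈ S) ⊆ A.filter (fun S => y ∈ S)))
      (fun y => (A.filter (fun S => y ∈ S)).card)
      ⟨y0, mem_filter.mpr ⟨hy0, hy0X, Subset.rfl⟩⟩
    rw [mem_filter] at hy
    refine ⟨y, hy.1, hy.2.1, ?_, ?_⟩
    · apply card_le_card
      intro S hS
      rw [mem_filter] at hS ⊢
      refine ⟨hS.1, ?_⟩
      have h1 : S ∈ A.filter (fun S => y0 ∈ S) := mem_filter.mpr ⟨(mem_sdiff.mp hS.1).1, hS.2⟩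
      exact (mem_filter.mp (hy.2.2 h1)).2
    · set B := insert (Mx A y) (X.image (Mx A)) with hB
      have h1 : ∀ S ∈ M \ B, y ∈ S := by
        intro S hS
        rw [mem_sdiff, hM, mem_image, hB, mem_insert, not_or] at hS
        obtain ⟨⟨x, hx, rfl⟩, hne, hnX⟩ := hS
        have hxX : x ∉ X := fun h => hnX (mem_image_of_mem _ h)
        by_contra hyx
        apply hne
        apply Mx_eq
        have hsub : A.filter (fun S => y ∈ S) ⊆ A.filter (fun S => x ∈ S) := by
          intro S hS
          rw [mem_filter] at hS ⊢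
          refine ⟨hS.1, ?_⟩
          by_contra hxS
          exact hyx (le_Mx hS.1 hxS hS.2)
        have h2 := hmax x (mem_filter.mpr ⟨hx, hxX, hy.2.2.trans hsub⟩)
        exact (eq_of_subset_of_card_le hsub h2).symm
      have hBcard : B.card ≤ X.card + 1 :=
        (card_insert_le _ _).trans (Nat.add_le_add_right card_image_le 1)
      have h3 : (types A).card ≤ (M \ B).card + (X.card + 1) := by
        rw [← hcard]
        have := card_le_card_sdiff_add_card (s := M) (t := B)
        omega
      have h5 : Disjoint (M \ B) ((A \ M).filter (fun S => y ∈ S)) := by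
        rw [disjoint_left]
        intro S h6 h7
        exact (mem_sdiff.mp (mem_filter.mp h7).1).2 (mem_sdiff.mp h6).1
      have h6 : (M \ B) ∪ (A \ M).filter (fun S => y ∈ S) ⊆
          A.filter (fun S => y ∈ S) := by
        intro S hS
        rw [mem_union] at hS
        rw [mem_filter]
        rcases hS with hS | hS
        · exact ⟨hMA (mem_sdiff.mp hS).1, h1 S hS⟩
        · rw [mem_filter, mem_sdiff] at hS
          exact ⟨hS.1.1, hS.2⟩
      have h7 := card_le_card h6
      rw [card_union_of_disjoint h5] at h7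
      omega

/-- trivial bound -/
theorem many_small (A : Finset (Finset ℕ)) (huc : ∀ X ∈ A, ∀ Y ∈ A, X ∪ Y ∈ A) (he : ∅ ∈ A)
    (X : Finset ℕ) (hX : (A.sup id \ X).Nonempty) :
    ∃ y ∈ A.sup id, y ∉ X ∧ (types A).card ≤ (A.filter (fun S => y ∈ S)).card + X.card := by
  obtain ⟨N, hNA, hNcard, htop, hdom⟩ := dom_many A huc he
  obtain ⟨y0, hy0⟩ := hX
  rw [mem_sdiff] at hy0
  obtain ⟨y, hy, hyX, h1, h2⟩ := hdom X y0 hy0.1 hy0.2
  refine ⟨y, hy, hyX, ?_⟩
  have h3 : 0 < (N.filter (fun S => y0 ∈ S)).card :=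
    card_pos.mpr ⟨A.sup id, mem_filter.mpr ⟨htop, hy0.1⟩⟩
  omega

/-- the entropy bound -/
theorem many_ent (A : Finset (Finset ℕ)) (huc : ∀ X ∈ A, ∀ Y ∈ A, X ∪ Y ∈ A) (he : ∅ ∈ A)
    (X : Finset ℕ) (hX : (A.sup id \ X).Nonempty)
    (hL : 0 < log ((A.card : ℝ) - (types A).card) - X.card * log 2)
    (ht : 0 < (A.card : ℝ) - (types A).card) :
    ∃ y ∈ A.sup id, y ∉ X ∧ ((types A).card : ℝ) - 1 - X.card +
      ((A.card : ℝ) - (types A).card) * (1 - (√5 - 1) / 2 * (log A.card /
        (log ((A.card : ℝ) - (types A).card) - X.card * log 2))) ≤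
      ((A.filter (fun S => y ∈ S)).card : ℝ) := by
  have hq : 0 < q := by have := q_lb; linarith
  obtain ⟨N, hNA, hNcard, htop, hdom⟩ := dom_many A huc he
  have hNr : (A.card : ℝ) - (types A).card = (N.card : ℝ) := by
    rw [sub_eq_iff_eq_add]
    exact_mod_cast hNcard.symm
  rw [hNr] at hL ht ⊢
  obtain ⟨y0, hy0, hmax⟩ := exists_max_image (A.sup id \ X)
    (fun i => (N.filter (fun S => i ∈ S)).card) hX
  rw [mem_sdiff] at hy0
  obtain ⟨β, hβ⟩ : ∃ β : ℝ, β = ((N.filter (fun S => y0 ∈ S)).card : ℝ) / N.card := ⟨_, rfl⟩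
  have hβ1 : β * N.card = ((N.filter (fun S => y0 ∈ S)).card : ℝ) := by
    rw [hβ, div_mul_cancel₀ _ ht.ne']
  have hβ2 : β ≤ 1 := by
    rw [hβ, div_le_one ht]
    exact_mod_cast card_filter_le _ _
  have h1 := ent_many A N hNA huc X hβ2 (fun i hi hiX => by
    rw [hβ1]
    exact_mod_cast hmax i (mem_sdiff.mpr ⟨hi, hiX⟩))
  obtain ⟨y, hy, hyX, h2, h3⟩ := hdom X y0 hy0.1 hy0.2
  refine ⟨y, hy, hyX, ?_⟩
  have h2' : ((N.filter (fun S => y0 ∈ S)).card : ℝ) ≤ (N.filter (fun S => y ∈ S)).card := by
    exact_mod_cast h2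
  have h3' : ((types A).card : ℝ) + (N.filter (fun S => y ∈ S)).card ≤
      (A.filter (fun S => y ∈ S)).card + 1 + X.card := by exact_mod_cast h3
  set L := log (N.card : ℝ) - X.card * log 2 with hLdef
  have h4 : (N.card : ℝ) ^ 2 * (q * (1 - β) * L) ≤ (N.card : ℝ) ^ 2 * log A.card := by
    calc _ = q * (1 - β) * ((N.card : ℝ) ^ 2 * L) := by ring
      _ ≤ _ := h1
  have h5 := le_of_mul_le_mul_left h4 (by positivity)
  have h6 : 1 - β ≤ (√5 - 1) / 2 * (log A.card / L) := by
    have e := q_mul'
    have h7 : (1 - β) * L ≤ (√5 - 1) / 2 * log A.card := by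
      have h8 : q * ((1 - β) * L) ≤ q * ((√5 - 1) / 2 * log A.card) := by
        calc q * ((1 - β) * L) = q * (1 - β) * L := by ring
          _ ≤ log A.card := h5
          _ = q * ((√5 - 1) / 2) * log A.card := by rw [e, one_mul]
          _ = _ := by ring
      exact le_of_mul_le_mul_left h8 hq
    rw [← mul_div_assoc, le_div_iff₀ hL]
    exact h7
  have h9 : (N.card : ℝ) * (1 - (√5 - 1) / 2 * (log A.card / L)) ≤ N.card * β :=
    mul_le_mul_of_nonneg_left (by linarith) ht.le
  linarith [mul_comm (N.card : ℝ) β]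

/-- adding the empty set -/
theorem types_insert (A : Finset (Finset ℕ)) : types (insert ∅ A) = types A := by
  unfold types
  have h1 : (insert ∅ A : Finset (Finset ℕ)).sup id = A.sup id := by
    rw [sup_insert, id, bot_eq_empty.symm, bot_sup_eq]
  rw [h1]
  apply image_congr
  intro x _
  simp only
  rw [filter_insert, if_neg (notMem_empty x)]

theorem sup_insert' (A : Finset (Finset ℕ)) : (insert ∅ A : Finset (Finset ℕ)).sup id = A.sup id := by
  rw [sup_insert, id, bot_eq_empty.symm, bot_sup_eq]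

theorem filter_insert' (A : Finset (Finset ℕ)) (x : ℕ) :
    (insert ∅ A).filter (fun S => x ∈ S) = A.filter (fun S => x ∈ S) := by
  rw [filter_insert, if_neg (notMem_empty x)]

theorem uc_insert (A : Finset (Finset ℕ)) (huc : ∀ X ∈ A, ∀ Y ∈ A, X ∪ Y ∈ A) :
    ∀ X ∈ (insert ∅ A : Finset (Finset ℕ)), ∀ Y ∈ (insert ∅ A : Finset (Finset ℕ)),
      X ∪ Y ∈ (insert ∅ A : Finset (Finset ℕ)) := by
  intro X hX Y hY
  rw [mem_insert] at hX hY
  rcases hX with rfl | hX
  · rw [empty_union, mem_insert]
    exact hY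
  · rcases hY with rfl | hY
    · rw [union_empty, mem_insert]
      exact Or.inr hX
    · exact mem_insert_of_mem (huc X hX Y hY)

/-- the ratio of the logarithms tends to one -/
theorem tendsto_ratio (a b : ℝ) :
    Filter.Tendsto (fun n : ℕ => (log n + a) / (log n - b)) Filter.atTop (nhds 1) := by
  have hlog : Filter.Tendsto (fun n : ℕ => log (n : ℝ) - b) Filter.atTop Filter.atTop :=
    Filter.tendsto_atTop_add_const_right _ _
      (tendsto_log_atTop.comp tendsto_natCast_atTop_atTop)
  have h1 : Filter.Tendsto (fun n : ℕ => 1 + (a + b) / (log (n : ℝ) - b)) Filter.atTop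
      (nhds (1 + 0)) :=
    tendsto_const_nhds.add (hlog.const_div_atTop (a + b))
  rw [add_zero] at h1
  refine h1.congr' ?_
  filter_upwards [hlog.eventually_gt_atTop 0] with n hn
  field_simp
  ring

theorem tendsto_slack (k : ℕ) (c a b : ℝ) :
    Filter.Tendsto (fun n : ℕ => 1 / 2 - (1 + (k : ℝ)) / n - (c - 1 + 1 / (n : ℝ)) *
      ((√5 - 1) / 2 * ((log n + a) / (log n - b)) - 1 / 2)) Filter.atTop
      (nhds (1 / 2 - 0 - (c - 1 + 0) * ((√5 - 1) / 2 * 1 - 1 / 2))) := by
  have hn : Filter.Tendsto (fun n : ℕ => (n : ℝ)) Filter.atTop Filter.atTop :=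
    tendsto_natCast_atTop_atTop
  refine ((tendsto_const_nhds.sub (hn.const_div_atTop _)).sub
    ((tendsto_const_nhds.add (hn.const_div_atTop _)).mul
      (((tendsto_ratio a b).const_mul _).sub tendsto_const_nhds)))

/-- For every `k` and `c < 3 + √5`, a union-closed family with `n` types of elements (`n` large) and
at most `c n` members has at least `k` abundant elements. -/
theorem many (k : ℕ) (c : ℝ) (hc : c < 3 + √5) : ∃ n0 : ℕ, ∀ A : Finset (Finset ℕ),
    (∀ X ∈ A, ∀ Y ∈ A, X ∪ Y ∈ A) → n0 ≤ (types A).card → (A.card : ℝ) ≤ c * (types A).card →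
    k ≤ ((A.sup id).filter (fun x => A.card < 2 * (A.filter (fun S => x ∈ S)).card)).card := by
  have h5sq : √5 ^ 2 = 5 := sq_sqrt (by norm_num)
  have h5 := sqrt5_lb
  have h5' := sqrt5_ub
  -- reduce to `1 ≤ c`
  obtain ⟨c', hc', hc1, hcc⟩ : ∃ c' : ℝ, c' < 3 + √5 ∧ 1 ≤ c' ∧ c ≤ c' :=
    ⟨max c 1, max_lt hc (by linarith), le_max_right _ _, le_max_left _ _⟩
  set a := log (c' + 1) with ha
  set b := ((k : ℝ) + 1) * log 2 with hb
  have hlim := tendsto_slack k c' a b
  have hpos : 0 < 1 / 2 - 0 - (c' - 1 + 0) * ((√5 - 1) / 2 * 1 - 1 / 2) := by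
    have h1 : (c' - 1) * ((√5 - 2) / 2) < (2 + √5) * ((√5 - 2) / 2) :=
      mul_lt_mul_of_pos_right (by linarith) (by linarith)
    have h2 : (2 + √5) * ((√5 - 2) / 2) = 1 / 2 := by nlinarith
    have h3 : (c' - 1 + 0) * ((√5 - 1) / 2 * 1 - 1 / 2) = (c' - 1) * ((√5 - 2) / 2) := by ring
    rw [h3]
    linarith
  have hlog : Filter.Tendsto (fun n : ℕ => log (n : ℝ) - b) Filter.atTop Filter.atTop :=
    Filter.tendsto_atTop_add_const_right _ _
      (tendsto_log_atTop.comp tendsto_natCast_atTop_atTop)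
  obtain ⟨n0, hn0⟩ := Filter.eventually_atTop.mp
    ((Filter.Tendsto.eventually_const_lt hpos hlim).and ((hlog.eventually_gt_atTop 0).and
      (Filter.eventually_ge_atTop (4 * k + 10))))
  refine ⟨n0, ?_⟩
  intro A huc hn hm
  obtain ⟨hs1, hs2, hs3⟩ := hn0 _ hn
  by_contra hcon
  push Not at hcon
  set F := (A.sup id).filter (fun x => A.card < 2 * (A.filter (fun S => x ∈ S)).card) with hF
  -- pass to the family with the empty set
  set A' := (insert ∅ A : Finset (Finset ℕ)) with hA'
  have hty : types A' = types A := types_insert A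
  have hsup : A'.sup id = A.sup id := sup_insert' A
  have huc' := uc_insert A huc
  have hcardle : A'.card ≤ A.card + 1 := card_insert_le _ _
  have hcardge : A.card ≤ A'.card := card_le_card (subset_insert _ _)
  have hGcard : (types A).card ≤ (A.sup id).card := by
    unfold types
    exact card_image_le
  have hXne : (A'.sup id \ F).Nonempty := by
    rw [← card_pos, hsup]
    have := card_le_card_sdiff_add_card (s := A.sup id) (t := F)
    omega
  have hcontra : ∀ y ∈ A'.sup id, y ∉ F → 2 * (A'.filter (fun S => y ∈ S)).card ≤ A.card := by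
    intro y hy hyF
    rw [filter_insert']
    rw [hsup] at hy
    by_contra hlt
    apply hyF
    rw [hF, mem_filter]
    exact ⟨hy, by omega⟩
  obtain ⟨n, hnd⟩ : ∃ n : ℝ, n = (types A).card := ⟨_, rfl⟩
  have hn4 : 4 * (k : ℝ) + 10 ≤ n := by
    rw [hnd]
    exact_mod_cast hs3
  have hk0 : (0 : ℝ) ≤ k := by positivity
  have hFk : (F.card : ℝ) + 1 ≤ k := by exact_mod_cast hcon
  have hF0 : (0 : ℝ) ≤ F.card := by positivity
  rcases le_total (2 * A'.card) (3 * (types A).card) with hsm | hbig
  · -- few members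
    obtain ⟨y, hy, hyF, h1⟩ := many_small A' huc' (mem_insert_self _ _) F hXne
    have h2 := hcontra y hy hyF
    rw [hty] at h1
    omega
  · have hbig' : 3 * n ≤ 2 * (A'.card : ℝ) := by
      rw [hnd]
      exact_mod_cast hbig
    obtain ⟨m, hmd⟩ : ∃ m : ℝ, m = A'.card := ⟨_, rfl⟩
    rw [← hmd] at hbig'
    have hmle : m ≤ c' * n + 1 := by
      have h1 : (A'.card : ℝ) ≤ A.card + 1 := by exact_mod_cast hcardle
      have h2 : c * n ≤ c' * n := mul_le_mul_of_nonneg_right hcc (by linarith)
      rw [hmd]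
      rw [← hnd] at hm
      linarith
    rw [← hnd] at hs1 hs2
    have hlog2 : 0 < log 2 := log_pos (by norm_num)
    -- logarithms
    have hn0' : 0 < n := by linarith
    have ht : n / 2 ≤ m - n := by linarith
    have hlt : log n - log 2 ≤ log (m - n) := by
      rw [← log_div hn0'.ne' (by norm_num)]
      exact log_le_log (by linarith) ht
    have hFlog : (F.card : ℝ) * log 2 ≤ k * log 2 :=
      mul_le_mul_of_nonneg_right (by linarith) hlog2.le
    have hden : log n - b ≤ log (m - n) - F.card * log 2 := by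
      have : b = k * log 2 + log 2 := by rw [hb]; ring
      linarith
    have hnum : log m ≤ log n + a := by
      rw [ha, ← log_mul hn0'.ne' (by linarith)]
      apply log_le_log (by linarith)
      nlinarith
    obtain ⟨y, hy, hyF, h1⟩ := many_ent A' huc' (mem_insert_self _ _) F hXne
      (by rw [hty, ← hnd, ← hmd]; linarith) (by rw [hty, ← hnd, ← hmd]; linarith)
    have h2 := hcontra y hy hyF
    rw [hty, ← hnd, ← hmd] at h1
    have h2' : 2 * ((A'.filter (fun S => y ∈ S)).card : ℝ) ≤ m := by
      have h3 : 2 * (A'.filter (fun S => y ∈ S)).card ≤ A'.card := by omega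
      rw [hmd]
      exact_mod_cast h3
    -- compare the ratios
    have hLpos : 0 < log (m - n) - F.card * log 2 := by linarith
    have hm0 : 0 ≤ log m := log_nonneg (by linarith)
    have hratio : log m / (log (m - n) - F.card * log 2) ≤ (log n + a) / (log n - b) :=
      div_le_div₀ (by linarith) hnum hs2 hden
    set ρ := (log n + a) / (log n - b) with hρ
    have hρ1 : 1 ≤ ρ := by
      rw [hρ, one_le_div hs2]
      have ha0 : 0 ≤ a := log_nonneg (by linarith)
      have hb0 : 0 ≤ b := by positivity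
      linarith
    have hg : 0 ≤ (√5 - 1) / 2 * ρ - 1 / 2 := by nlinarith
    have h3 : (m - n) * (1 - (√5 - 1) / 2 * ρ) ≤
        (m - n) * (1 - (√5 - 1) / 2 * (log m / (log (m - n) - F.card * log 2))) := by
      apply mul_le_mul_of_nonneg_left _ (by linarith)
      have : (√5 - 1) / 2 * (log m / (log (m - n) - F.card * log 2)) ≤ (√5 - 1) / 2 * ρ :=
        mul_le_mul_of_nonneg_left hratio (by linarith)
      linarith
    have h4 : (m - n) * ((√5 - 1) / 2 * ρ - 1 / 2) ≤
        ((c' - 1) * n + 1) * ((√5 - 1) / 2 * ρ - 1 / 2) :=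
      mul_le_mul_of_nonneg_right (by linarith) hg
    have h5 : 0 < n / 2 - (1 + k) - ((c' - 1) * n + 1) * ((√5 - 1) / 2 * ρ - 1 / 2) := by
      have h6 := mul_pos hn0' hs1
      have h7 : n * (1 / 2 - (1 + (k : ℝ)) / n - (c' - 1 + 1 / n) * ((√5 - 1) / 2 * ρ - 1 / 2)) =
          n / 2 - (1 + k) - ((c' - 1) * n + 1) * ((√5 - 1) / 2 * ρ - 1 / 2) := by
        field_simp
      rw [h7] at h6
      exact h6
    have h8 : (m - n) * (1 - (√5 - 1) / 2 * ρ) =
        (m - n) / 2 - (m - n) * ((√5 - 1) / 2 * ρ - 1 / 2) := by ring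
    linarith

end Pool.Agent.H200R3.Many
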