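import Mathlib
import Pool.Agent.H200R3.Many

set_option autoImplicit false

/-!
# Many abundant elements in union-closed families with few members: an explicit form
-/

namespace Pool.Agent.H200R3.Many

open Finset Real Pool.Agent.H117R2 Pool.Agent.H117R2.Gold Pool.Agent.H634R3.UC

theorem log_three_halves : log (3 / 2 : ℝ) ≤ 3 / 5 * log 2 := by
  have h1 : log ((3 / 2 : ℝ) ^ 5) ≤ log (2 ^ 3) := log_le_log (by norm_num) (by norm_num)
  rw [log_pow, log_pow] at h1
  push_cast at h1
  linarith

theorem log_three : log (3 : ℝ) ≤ 8 / 5 * log 2 := by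
  have h1 : log ((3 : ℝ) ^ 5) ≤ log (2 ^ 8) := log_le_log (by norm_num) (by norm_num)
  rw [log_pow, log_pow] at h1
  push_cast at h1
  linarith

/-- A union-closed family with `n ≥ 2 ^ (10 k)` types of elements and at most `10 n / 3` members
has at least `k` abundant elements. -/
theorem manyExplicit (k : ℕ) (A : Finset (Finset ℕ)) (huc : ∀ X ∈ A, ∀ Y ∈ A, X ∪ Y ∈ A)
    (hn : 2 ^ (10 * k) ≤ (types A).card) (hm : 3 * A.card ≤ 10 * (types A).card) :
    k ≤ ((A.sup id).filter (fun x => A.card < 2 * (A.filter (fun S => x ∈ S)).card)).card := by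
  rcases Nat.eq_zero_or_pos k with rfl | hk
  · exact Nat.zero_le _
  have h5sq : √5 ^ 2 = 5 := sq_sqrt (by norm_num)
  have h5 := sqrt5_lb
  have h5' := sqrt5_ub
  by_contra hcon
  push Not at hcon
  set F := (A.sup id).filter (fun x => A.card < 2 * (A.filter (fun S => x ∈ S)).card) with hF
  -- pass to the family with the empty set
  set A' := (insert ∅ A : Finset (Finset ℕ)) with hA'
  have hty : types A' = types A := types_insert A
  have hsup : A'.sup id = A.sup id := sup_insert' A
  have huc' := uc_insert A huc
  have hcardle : A'.card ≤ A.card + 1 := card_insert_le _ _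
  have hcardge : A.card ≤ A'.card := card_le_card (subset_insert _ _)
  have hGcard : (types A).card ≤ (A.sup id).card := by
    unfold types
    exact card_image_le
  have hpow : 1024 * k ≤ 2 ^ (10 * k) := by
    have h1 : (2 : ℕ) ^ (10 * k) = 1024 * 1024 ^ (k - 1) := by
      rw [pow_mul, ← pow_succ']
      norm_num
      congr 1
      omega
    rw [h1]
    apply Nat.mul_le_mul_left
    have h2 : k - 1 < 1024 ^ (k - 1) := Nat.lt_pow_self (by norm_num)
    omega
  have hnk : 1024 * k ≤ (types A).card := hpow.trans hn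
  have hXne : (A'.sup id \ F).Nonempty := by
    rw [← card_pos, hsup]
    have := card_le_card_sdiff_add_card (s := A.sup id) (t := F)
    omega
  have hcontra : ∀ y ∈ A'.sup id, y ∉ F → 2 * (A'.filter (fun S => y ∈ S)).card ≤ A.card := by
    intro y hy hyF
    rw [filter_insert']
    rw [hsup] at hy
    by_contra hlt
    apply hyF
    rw [hF, mem_filter]
    exact ⟨hy, by omega⟩
  obtain ⟨n, hnd⟩ : ∃ n : ℝ, n = (types A).card := ⟨_, rfl⟩
  have hn4 : 1024 * (k : ℝ) ≤ n := by
    rw [hnd]
    exact_mod_cast hnk
  have hk0 : (1 : ℝ) ≤ k := by exact_mod_cast hk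
  have hFk : (F.card : ℝ) + 1 ≤ k := by exact_mod_cast hcon
  have hF0 : (0 : ℝ) ≤ F.card := by positivity
  rcases le_total (2 * A'.card) (3 * (types A).card) with hsm | hbig
  · -- few members
    obtain ⟨y, hy, hyF, h1⟩ := many_small A' huc' (mem_insert_self _ _) F hXne
    have h2 := hcontra y hy hyF
    rw [hty] at h1
    omega
  · have hbig' : 3 * n ≤ 2 * (A'.card : ℝ) := by
      rw [hnd]
      exact_mod_cast hbig
    obtain ⟨m, hmd⟩ : ∃ m : ℝ, m = A'.card := ⟨_, rfl⟩
    rw [← hmd] at hbig'
    have hmle : 3 * m ≤ 10 * n + 3 := by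
      have h1 : (A'.card : ℝ) ≤ A.card + 1 := by exact_mod_cast hcardle
      have h2 : 3 * (A.card : ℝ) ≤ 10 * n := by rw [hnd]; exact_mod_cast hm
      rw [hmd]
      linarith
    have hlog2 : 0 < log 2 := log_pos (by norm_num)
    have hn0' : 0 < n := by linarith
    have ht : n / 2 ≤ m - n := by linarith
    have ht0 : 0 < m - n := by linarith
    have hlogn : 10 * k * log 2 ≤ log n := by
      have h1 : log ((2 : ℝ) ^ (10 * k)) ≤ log n := by
        apply log_le_log (by positivity)
        rw [hnd]
        exact_mod_cast hn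
      rw [log_pow] at h1
      push_cast at h1
      exact h1
    have hlt : log n - log 2 ≤ log (m - n) := by
      rw [← log_div hn0'.ne' (by norm_num)]
      exact log_le_log (by linarith) ht
    have hFlog : (F.card : ℝ) * log 2 ≤ (k - 1) * log 2 :=
      mul_le_mul_of_nonneg_right (by linarith) hlog2.le
    have hkl : log 2 ≤ k * log 2 := by
      have := mul_le_mul_of_nonneg_right hk0 hlog2.le
      linarith
    have hLpos : 0 < log (m - n) - F.card * log 2 := by nlinarith
    obtain ⟨y, hy, hyF, h1⟩ := many_ent A' huc' (mem_insert_self _ _) F hXne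
      (by rw [hty, ← hnd, ← hmd]; exact hLpos) (by rw [hty, ← hnd, ← hmd]; exact ht0)
    have h2 := hcontra y hy hyF
    rw [hty, ← hnd, ← hmd] at h1
    have h2' : 2 * ((A'.filter (fun S => y ∈ S)).card : ℝ) ≤ m := by
      have h3 : 2 * (A'.filter (fun S => y ∈ S)).card ≤ A'.card := by omega
      rw [hmd]
      exact_mod_cast h3
    have hm0' : 0 < m := by linarith
    have hmt : log m = log (m - n) + log (m / (m - n)) := by
      rw [log_div hm0'.ne' ht0.ne']
      ring
    -- from a bound for the ratio of the logarithms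
    have key : ∀ r : ℝ, 0 ≤ r → log (m / (m - n)) + (1 + r) * ((k - 1) * log 2) ≤
        r * log (m - n) → (m - n) * (1 - (√5 - 1) / 2 * (1 + r)) ≤
        (m - n) * (1 - (√5 - 1) / 2 * (log m / (log (m - n) - F.card * log 2))) := by
      intro r hr hr'
      apply mul_le_mul_of_nonneg_left _ ht0.le
      have h3 : log m / (log (m - n) - F.card * log 2) ≤ 1 + r := by
        rw [div_le_iff₀ hLpos, hmt]
        have h4 : (1 + r) * (F.card * log 2) ≤ (1 + r) * ((k - 1) * log 2) :=
          mul_le_mul_of_nonneg_left hFlog (by linarith)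
        nlinarith
      have h4 : (√5 - 1) / 2 * (log m / (log (m - n) - F.card * log 2)) ≤
          (√5 - 1) / 2 * (1 + r) := mul_le_mul_of_nonneg_left h3 (by linarith)
      linarith
    rcases le_total (m - n) (2 * n) with hA | hB
    · -- `t ≤ 2 n`
      have h3 : log (m / (m - n)) ≤ 8 / 5 * log 2 := by
        refine le_trans (log_le_log (div_pos hm0' ht0) ?_) log_three
        rw [div_le_iff₀ ht0]
        linarith
      have h4 := key (8 / 45) (by norm_num) (by nlinarith)
      have h6 : (m - n) * (1 - 618050 / 1000000 * (53 / 45)) ≤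
          (m - n) * (1 - (√5 - 1) / 2 * (1 + 8 / 45)) :=
        mul_le_mul_of_nonneg_left (by linarith) ht0.le
      linarith
    · -- `2 n ≤ t`
      have h3 : log (m / (m - n)) ≤ 3 / 5 * log 2 := by
        refine le_trans (log_le_log (div_pos hm0' ht0) ?_) log_three_halves
        rw [div_le_iff₀ ht0]
        linarith
      have hlt2 : log n + log 2 ≤ log (m - n) := by
        rw [← log_mul hn0'.ne' (by norm_num)]
        exact log_le_log (by linarith) (by linarith)
      have h4 := key (1 / 9) (by norm_num) (by nlinarith)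
      have h6 : (m - n) * (1 - 618050 / 1000000 * (10 / 9)) ≤
          (m - n) * (1 - (√5 - 1) / 2 * (1 + 1 / 9)) :=
        mul_le_mul_of_nonneg_left (by linarith) ht0.le
      linarith

end Pool.Agent.H200R3.Many
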