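import Mathlib
import Pool.Agent.H200R3.Many

set_option autoImplicit false

/-!
# The number of frequent elements of a union-closed family
-/

namespace Pool.Agent.H200R3.Many

open Finset Real Pool.Agent.H117R2 Pool.Agent.H117R2.Gold Pool.Agent.H634R3.UC

/-- A union-closed family has at least `(1 - (√5 - 1) / (2 (1 - θ))) log₂ |A|` elements of frequency
at least `θ |A|`. -/
theorem manyFrequent (A : Finset (Finset ℕ)) (huc : ∀ X ∈ A, ∀ Y ∈ A, X ∪ Y ∈ A) (θ : ℝ)
    (hθ : θ < 1) :
    (1 - (√5 - 1) / (2 * (1 - θ))) * logb 2 A.card ≤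
      (((A.sup id).filter (fun x => θ * A.card ≤ (A.filter (fun S => x ∈ S)).card)).card : ℝ) := by
  set X := (A.sup id).filter (fun x => θ * A.card ≤ ((A.filter (fun S => x ∈ S)).card : ℝ)) with hX
  have hq : 0 < q := by have := q_lb; linarith
  have hlog2 : 0 < log 2 := log_pos (by norm_num)
  rcases A.eq_empty_or_nonempty with rfl | hne
  · simp
  have hm : (0 : ℝ) < A.card := by
    have := hne.card_pos
    exact_mod_cast this
  have h1 := ent_many A A Subset.rfl huc X hθ.le (fun i hi hiX => by
    by_contra hcon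
    apply hiX
    rw [hX, mem_filter]
    push Not at hcon
    exact ⟨hi, hcon.le⟩)
  have h2 : (A.card : ℝ) ^ 2 * (q * (1 - θ) * (log A.card - X.card * log 2)) ≤
      (A.card : ℝ) ^ 2 * log A.card := by
    calc _ = q * (1 - θ) * ((A.card : ℝ) ^ 2 * (log A.card - X.card * log 2)) := by ring
      _ ≤ _ := h1
  have h3 := le_of_mul_le_mul_left h2 (by positivity)
  have hθ' : 0 < 1 - θ := by linarith
  have h4 : (1 - θ) * (log A.card - X.card * log 2) ≤ (√5 - 1) / 2 * log A.card := by
    have h5 : q * ((1 - θ) * (log A.card - X.card * log 2)) ≤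
        q * ((√5 - 1) / 2 * log A.card) := by
      calc q * ((1 - θ) * (log A.card - X.card * log 2))
          = q * (1 - θ) * (log A.card - X.card * log 2) := by ring
        _ ≤ log A.card := h3
        _ = q * ((√5 - 1) / 2) * log A.card := by rw [q_mul', one_mul]
        _ = _ := by ring
    exact le_of_mul_le_mul_left h5 hq
  have h6 : log A.card - X.card * log 2 ≤ (√5 - 1) / (2 * (1 - θ)) * log A.card := by
    have h7 : log A.card - X.card * log 2 ≤ (√5 - 1) / 2 * log A.card / (1 - θ) := by
      rw [le_div_iff₀ hθ', mul_comm]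
      exact h4
    have h8 : (√5 - 1) / 2 * log A.card / (1 - θ) = (√5 - 1) / (2 * (1 - θ)) * log A.card := by
      field_simp
    rw [h8] at h7
    exact h7
  have h9 : (1 - (√5 - 1) / (2 * (1 - θ))) * logb 2 A.card =
      ((1 - (√5 - 1) / (2 * (1 - θ))) * log A.card) / log 2 := by
    unfold logb
    ring
  rw [h9, div_le_iff₀ hlog2]
  linarith

end Pool.Agent.H200R3.Many
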