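import Mathlib
import Pool.Agent.H634R3.UC.Gold
import Pool.Agent.H634R3.UC.Fin

set_option autoImplicit false

/-!
# Strict majority elements in union-closed families with few members

Strict versions of `Pool.Agent.H634R3.UC.small` and `Pool.Agent.H634R3.UC.tenThirds` (helper634);
the entropy inequalities `gold` and `main385` are imported from there.
-/

namespace Pool.Agent.H200R3

open Finset Real Pool.Agent.H117R2 Pool.Agent.H634R3.UC

/-- families with `m ≤ 2 n`, at least three types: strict majority -/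
theorem smallStrict (A : Finset (Finset ℕ)) (huc : ∀ X ∈ A, ∀ Y ∈ A, X ∪ Y ∈ A)
    (hn : 3 ≤ (types A).card) (hmn : A.card ≤ 2 * (types A).card) :
    ∃ i : ℕ, A.card < 2 * (A.filter (fun X => i ∈ X)).card := by
  obtain ⟨x0, hx0⟩ : ∃ x0, x0 ∈ A.sup id := by
    have : (types A).Nonempty := card_pos.mp (by omega)
    unfold types at this
    rw [image_nonempty] at this
    exact this
  have hA : A.Nonempty := by
    rw [nonempty_iff_ne_empty]
    rintro rfl
    simp at hx0
  have hApos : 0 < A.card := card_pos.mpr hA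
  by_cases hall : ∀ x ∈ A.sup id, ∃ S ∈ A, x ∉ S
  swap
  · push Not at hall
    obtain ⟨x, hx, hxA⟩ := hall
    refine ⟨x, ?_⟩
    rw [filter_true_of_mem hxA]
    omega
  obtain ⟨N, hNA, hNcard, htop, hdom⟩ := dom' A huc hall
  rcases lt_or_ge A.card (2 * (types A).card) with hlt | hge
  · obtain ⟨y, h1, h2⟩ := hdom x0 hx0
    have h3 : 0 < (N.filter (fun X => x0 ∈ X)).card :=
      card_pos.mpr ⟨A.sup id, mem_filter.mpr ⟨htop hA, hx0⟩⟩
    exact ⟨y, by omega⟩
  · have hN3 : 3 ≤ N.card := by omega
    -- a member of `N` different from the top and from the empty set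
    obtain ⟨S, hSN, hStop, hSne⟩ : ∃ S ∈ N, S ≠ A.sup id ∧ S ≠ ∅ := by
      by_contra hcon
      push Not at hcon
      have hsub : N ⊆ {A.sup id, ∅} := by
        intro S hS
        rw [mem_insert, mem_singleton]
        by_cases h : S = A.sup id
        · exact Or.inl h
        · exact Or.inr (hcon S hS h)
      have := card_le_card hsub
      have h2 : ({A.sup id, ∅} : Finset (Finset ℕ)).card ≤ 2 := card_le_two
      omega
    obtain ⟨x1, hx1⟩ := nonempty_iff_ne_empty.mpr hSne
    have hx1' : x1 ∈ A.sup id := by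
      rw [mem_sup]
      exact ⟨S, hNA hSN, hx1⟩
    obtain ⟨y, h1, h2⟩ := hdom x1 hx1'
    have h3 : 1 < (N.filter (fun X => x1 ∈ X)).card :=
      one_lt_card.mpr ⟨S, mem_filter.mpr ⟨hSN, hx1⟩, A.sup id, mem_filter.mpr ⟨htop hA, hx1'⟩, hStop⟩
    exact ⟨y, by omega⟩

/-- families with at most `10 n / 3` members -/
theorem tenThirdsStrict (A : Finset (Finset ℕ)) (huc : ∀ X ∈ A, ∀ Y ∈ A, X ∪ Y ∈ A)
    (hn : 16 ≤ (types A).card) (hmn : 3 * A.card ≤ 10 * (types A).card) :
    ∃ i : ℕ, A.card < 2 * (A.filter (fun X => i ∈ X)).card := by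
  rcases le_total A.card (2 * (types A).card) with hsm | hbig
  · exact smallStrict A huc (by omega) hsm
  obtain ⟨i, hi⟩ := gold A huc (by omega) (by omega)
  refine ⟨i, ?_⟩
  have hn' : (16 : ℝ) ≤ (types A).card := by exact_mod_cast hn
  have hmn' : 3 * (A.card : ℝ) ≤ 10 * (types A).card := by exact_mod_cast hmn
  have hbig' : 2 * ((types A).card : ℝ) ≤ A.card := by exact_mod_cast hbig
  obtain ⟨n, hnd⟩ : ∃ n : ℝ, n = (types A).card := ⟨_, rfl⟩
  obtain ⟨m, hmd⟩ : ∃ m : ℝ, m = A.card := ⟨_, rfl⟩
  obtain ⟨d, hdd⟩ : ∃ d : ℝ, d = (A.filter (fun X => i ∈ X)).card := ⟨_, rfl⟩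
  rw [← hnd, ← hmd, ← hdd] at hi
  rw [← hnd] at hn'
  rw [← hnd, ← hmd] at hmn' hbig'
  suffices h : m < 2 * d by
    rw [hmd, hdd] at h
    exact_mod_cast h
  obtain ⟨t, ht⟩ : ∃ t : ℝ, t = m - n := ⟨_, rfl⟩
  rw [← ht] at hi
  have ht0 : 16 ≤ t := by linarith
  have h5 := sqrt5_ub
  have h5' := sqrt5_lb
  have hl2 := log_two_gt_d9
  have hm0 : 0 < m := by linarith
  have hRnn : 0 ≤ log (m / t) := by
    apply log_nonneg
    rw [le_div_iff₀ (by linarith)]
    linarith
  -- a bound for the error term from bounds for its numerator and denominator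
  have hE : ∀ B l : ℝ, 0 < l → l ≤ log t → t * log (m / t) ≤ B →
      log (m / t) / log t * t ≤ B / l := by
    intro B l hl hlt hB
    have h1 : log (m / t) / log t * t = (t * log (m / t)) / log t := by ring
    rw [h1]
    have h2 : 0 ≤ t * log (m / t) := mul_nonneg (by linarith) hRnn
    apply div_le_div₀ (h2.trans hB) hB hl hlt
  have hEnn : 0 ≤ log (m / t) / log t * t := by
    apply mul_nonneg (div_nonneg hRnn _) (by linarith)
    apply log_nonneg
    linarith
  have htan : ∀ a b : ℝ, 0 < a → log a ≤ b →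
      t * log (m / t) ≤ m / a - (1 - b) * t := by
    intro a b ha hab
    have h1 := log_tangent (x := m / t) (a := a) (by positivity) ha
    have h3 : t * log (m / t) ≤ t * (b + (m / t / a - 1)) :=
      mul_le_mul_of_nonneg_left (by linarith) (by linarith)
    have h4 : t * (b + (m / t / a - 1)) = m / a - (1 - b) * t := by
      field_simp
      ring
    linarith
  have hfin : ∀ e : ℝ, log (m / t) / log t * t ≤ e →
      m / 2 < n - 1 + 38195 / 100000 * t - 61805 / 100000 * e → m < 2 * d := by
    intro e he h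
    have h1 : ((3 - √5) / 2 - (√5 - 1) / 2 * (log (m / t) / log t)) * t =
        (3 - √5) / 2 * t - (√5 - 1) / 2 * (log (m / t) / log t * t) := by ring
    rw [h1] at hi
    have h2 : 38195 / 100000 * t ≤ (3 - √5) / 2 * t :=
      mul_le_mul_of_nonneg_right (by linarith) (by linarith)
    have h3 : (√5 - 1) / 2 * (log (m / t) / log t * t) ≤
        61805 / 100000 * (log (m / t) / log t * t) :=
      mul_le_mul_of_nonneg_right (by linarith) hEnn
    linarith
  have hl2' := log_two_lt_d9
  rcases le_total t (2 * n) with hA | hB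
  · have hL : 27725 / 10000 ≤ log t := by
      have h1 : log (16 : ℝ) ≤ log t := log_le_log (by norm_num) ht0
      have h2 : log (16 : ℝ) = 4 * log 2 := by
        rw [show (16 : ℝ) = 2 ^ 4 by norm_num, log_pow]; norm_num
      linarith
    have ha : log (1587 / 1000 : ℝ) ≤ 4621 / 10000 := by
      have h1 : log ((1587 / 1000 : ℝ) ^ 3) ≤ log (2 ^ 2) :=
        log_le_log (by norm_num) (by norm_num)
      rw [log_pow, log_pow] at h1
      push_cast at h1
      linarith
    have h1 := htan _ _ (by norm_num) ha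
    have h2 := hE _ _ (by norm_num) hL h1
    refine hfin _ h2 ?_
    have h3 : (m / (1587 / 1000) - (1 - 4621 / 10000) * t) / (27725 / 10000) =
        (m * (1000 / 1587) - (5379 / 10000) * t) * (10000 / 27725) := by ring
    rw [h3]
    have hmnt : m = n + t := by linarith
    rw [hmnt]
    linarith
  · have hL : 34655 / 10000 ≤ log t := by
      have h1 : log (32 : ℝ) ≤ log t := log_le_log (by norm_num) (by linarith)
      have h2 : log (32 : ℝ) = 5 * log 2 := by
        rw [show (32 : ℝ) = 2 ^ 5 by norm_num, log_pow]; norm_num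
      linarith
    have ha : log (1414 / 1000 : ℝ) ≤ 3466 / 10000 := by
      have h1 : log ((1414 / 1000 : ℝ) ^ 2) ≤ log 2 :=
        log_le_log (by norm_num) (by norm_num)
      rw [log_pow] at h1
      push_cast at h1
      linarith
    have h1 := htan _ _ (by norm_num) ha
    have h2 := hE _ _ (by norm_num) hL h1
    refine hfin _ h2 ?_
    have h3 : (m / (1414 / 1000) - (1 - 3466 / 10000) * t) / (34655 / 10000) =
        (m * (1000 / 1414) - (6534 / 10000) * t) * (10000 / 34655) := by ring
    rw [h3]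
    have hmnt : m = n + t := by linarith
    rw [hmnt]
    linarith

end Pool.Agent.H200R3
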