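import Mathlib
import Pool.Agent.H200R3.TreeFib

set_option autoImplicit false

/-!
# Tight union-closed families with a transversal of size four with tree fibres
-/

namespace Pool.Agent.H200R3.Tight

open Finset Pool.Agent.H200R3.TreeFib

theorem tight (A : Finset (Finset ℕ)) (hAne : A.Nonempty) (hU : ∀ X ∈ A, ∀ Y ∈ A, X ∪ Y ∈ A)
    (hfreq : ∀ x : ℕ, 2 * (A.filter (fun S => x ∈ S)).card ≤ A.card) (hT : FourTree A) :
    ∃ k : ℕ, A.card = 2 ^ k := by
  classical
  set G := A.sup id with hG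
  have hGtop : ∀ S ∈ A, S ⊆ G := fun S hS => Finset.le_sup (f := id) hS
  have hex : ∀ x : ℕ, ∃ r : ℕ, (x ∈ G → r ∈ G ∧
      A.filter (fun S => r ∈ S) = A.filter (fun S => x ∈ S) ∧
      ∀ y ∈ G, A.filter (fun S => y ∈ S) = A.filter (fun S => x ∈ S) → r ≤ y) ∧
      (x ∉ G → r = x) := by
    intro x
    by_cases hx : x ∈ G
    · have hne : (G.filter (fun y => A.filter (fun S => y ∈ S) =
          A.filter (fun S => x ∈ S))).Nonempty := ⟨x, mem_filter.mpr ⟨hx, rfl⟩⟩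
      obtain ⟨r, hr, hmin⟩ := exists_min_image _ (fun y : ℕ => y) hne
      rw [mem_filter] at hr
      refine ⟨r, fun _ => ⟨hr.1, hr.2, fun y hy hy' => hmin y (mem_filter.mpr ⟨hy, hy'⟩)⟩,
        fun h => absurd hx h⟩
    · exact ⟨x, fun h => absurd h hx, fun _ => rfl⟩
  choose rep hrep hrep' using hex
  have hrepmem : ∀ x, ∀ S ∈ A, rep x ∈ S ↔ x ∈ S := by
    intro x S hS
    by_cases hx : x ∈ G
    · have h := (hrep x hx).2.1
      have h1 : S ∈ A.filter (fun S => rep x ∈ S) ↔ S ∈ A.filter (fun S => x ∈ S) := by rw [h]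
      simpa [hS] using h1
    · rw [hrep' x hx]
  have hrepG : ∀ x ∈ G, rep x ∈ G := fun x hx => (hrep x hx).1
  have hreprep : ∀ x ∈ G, rep (rep x) = rep x := by
    intro x hx
    have h1 := hrep x hx
    have h2 := hrep (rep x) h1.1
    apply le_antisymm
    · exact h2.2.2 _ h1.1 rfl
    · exact h1.2.2 _ h2.1 (h2.2.1.trans h1.2.1)
  set R := G.image rep with hR
  have hRG : R ⊆ G := by
    intro r hr
    rw [hR, mem_image] at hr
    obtain ⟨x, hx, rfl⟩ := hr
    exact hrepG x hx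
  have hRfix : ∀ r ∈ R, rep r = r := by
    intro r hr
    rw [hR, mem_image] at hr
    obtain ⟨x, hx, rfl⟩ := hr
    exact hreprep x hx
  have hsub : ∀ S ∈ A, ∀ T ∈ A, S ∩ R ⊆ T ∩ R → S ⊆ T := by
    intro S hS T hT' h x hx
    have h1 : rep x ∈ S ∩ R :=
      mem_inter.mpr ⟨(hrepmem x S hS).mpr hx, mem_image_of_mem _ (hGtop S hS hx)⟩
    exact (hrepmem x T hT').mp (mem_inter.mp (h h1)).1
  have hinj : Set.InjOn (fun S => S ∩ R) (A : Set (Finset ℕ)) := by
    intro S hS T hT' h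
    exact Subset.antisymm (hsub S hS T hT' (le_of_eq h)) (hsub T hT' S hS (le_of_eq h.symm))
  set A' := A.image (fun S => S ∩ R) with hA'
  have hcard : A'.card = A.card := card_image_of_injOn hinj
  have hmem : ∀ S', S' ∈ A' ↔ ∃ S ∈ A, S ∩ R = S' := by
    intro S'
    rw [hA', mem_image]
  have hU' : ∀ X ∈ A', ∀ Y ∈ A', X ∪ Y ∈ A' := by
    intro X hX Y hY
    rw [hmem] at hX hY ⊢
    obtain ⟨S, hS, rfl⟩ := hX
    obtain ⟨T, hT', rfl⟩ := hY
    exact ⟨S ∪ T, hU S hS T hT', union_inter_distrib_right _ _ _⟩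
  have hsup : A'.sup id = R := by
    apply Subset.antisymm
    · refine Finset.sup_le ?_
      intro S' hS'
      rw [hmem] at hS'
      obtain ⟨S, hS, rfl⟩ := hS'
      exact inter_subset_right
    · intro r hr
      have h1 := hRG hr
      rw [hG, mem_sup] at h1
      obtain ⟨S, hS, hrS⟩ := h1
      rw [mem_sup]
      exact ⟨S ∩ R, (hmem _).mpr ⟨S, hS, rfl⟩, mem_inter.mpr ⟨hrS, hr⟩⟩
  have hfreq' : ∀ r ∈ R, (A'.filter (fun S => r ∈ S)).card = (A.filter (fun S => r ∈ S)).card := by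
    intro r hr
    have h1 : A'.filter (fun S => r ∈ S) = (A.filter (fun S => r ∈ S)).image (fun S => S ∩ R) := by
      ext S'
      rw [mem_filter, hmem, mem_image]
      constructor
      · rintro ⟨⟨S, hS, rfl⟩, hrS⟩
        exact ⟨S, mem_filter.mpr ⟨hS, (mem_inter.mp hrS).1⟩, rfl⟩
      · rintro ⟨S, hS, rfl⟩
        rw [mem_filter] at hS
        exact ⟨⟨S, hS.1, rfl⟩, mem_inter.mpr ⟨hS.2, hr⟩⟩
    rw [h1]
    exact card_image_of_injOn (hinj.mono (by exact_mod_cast filter_subset _ _))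
  have hsep : ∀ x ∈ A'.sup id, ∀ y ∈ A'.sup id, x ≠ y →
      ∃ S ∈ A', (x ∈ S ∧ y ∉ S) ∨ (y ∈ S ∧ x ∉ S) := by
    intro x hx y hy hne
    rw [hsup] at hx hy
    by_contra hcon
    push Not at hcon
    apply hne
    have h1 : A.filter (fun S => x ∈ S) = A.filter (fun S => y ∈ S) := by
      ext S
      simp only [mem_filter, and_congr_right_iff]
      intro hS
      have h2 := hcon (S ∩ R) ((hmem _).mpr ⟨S, hS, rfl⟩)
      simp only [mem_inter, hx, hy, and_true] at h2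
      tauto
    have h2 := (hrep x (hRG hx)).2.2 y (hRG hy) h1.symm
    have h3 := (hrep y (hRG hy)).2.2 x (hRG hx) h1
    rw [hRfix x hx] at h2
    rw [hRfix y hy] at h3
    exact le_antisymm h2 h3
  have hT' : FourTree A' := by
    obtain ⟨t, hhit, htree⟩ := hT
    have ht : ∀ i, ∀ S ∈ A, rep (t i) ∈ S ∩ R ↔ t i ∈ S := by
      intro i S hS
      rw [mem_inter, hrepmem _ S hS]
      constructor
      · exact fun h => h.1
      · intro h
        exact ⟨h, mem_image_of_mem _ (hGtop S hS h)⟩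
    have hpriv : ∀ i, ∀ S ∈ A, Private (fun i => rep (t i)) i (S ∩ R) → Private t i S := by
      intro i S hS h
      refine ⟨(ht i S hS).mp h.1, ?_⟩
      intro l hl hlS
      exact h.2 l hl ((ht l S hS).mpr hlS)
    refine ⟨fun i => rep (t i), ?_, ?_⟩
    · intro S' hS' hne
      rw [hmem] at hS'
      obtain ⟨S, hS, rfl⟩ := hS'
      obtain ⟨i, hi⟩ := hhit S hS (hne.mono inter_subset_left)
      exact ⟨i, (ht i S hS).mpr hi⟩
    · intro i S₁ h₁ S₂ h₂ S₃ h₃ p₁ p₂ p₃ h12 h13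
      rw [hmem] at h₁ h₂ h₃
      obtain ⟨S₁, h₁, rfl⟩ := h₁
      obtain ⟨S₂, h₂, rfl⟩ := h₂
      obtain ⟨S₃, h₃, rfl⟩ := h₃
      rcases htree i S₁ h₁ S₂ h₂ S₃ h₃ (hpriv i _ h₁ p₁) (hpriv i _ h₂ p₂) (hpriv i _ h₃ p₃)
        (hsub _ h₁ _ h₂ h12) (hsub _ h₁ _ h₃ h13) with h | h
      · exact Or.inl (inter_subset_inter_right h)
      · exact Or.inr (inter_subset_inter_right h)
  by_cases hpow : A' = (A'.sup id).powerset
  · refine ⟨R.card, ?_⟩
    rw [← hcard, hpow, hsup, card_powerset]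
  · obtain ⟨x, hx, hgt⟩ := poonen A' (hAne.image _) hU' hsep hpow hT'
    rw [hsup] at hx
    rw [hfreq' x hx, hcard] at hgt
    have := hfreq x
    omega

end Pool.Agent.H200R3.Tight
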