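import Mathlib
import Pool.Agent.H117R2.Dom

set_option autoImplicit false

/-!
# Union-closed families with at most twice as many members as types of elements
-/

namespace Pool.Agent.H200R3.TwoN

open Finset Pool.Agent.H117R2

/-- every nonempty member contains an element lying in at least `n` members -/
theorem exists_freq (A : Finset (Finset ℕ)) (huc : ∀ X ∈ A, ∀ Y ∈ A, X ∪ Y ∈ A)
    (hall : ∀ x ∈ A.sup id, ∃ S ∈ A, x ∉ S) (S0 : Finset ℕ) (hS0 : S0 ∈ A) (hne : S0.Nonempty) :
    ∃ y ∈ S0, (types A).card ≤ (A.filter (fun S => y ∈ S)).card := by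
  set M := (A.sup id).image (Mx A) with hM
  have hMA : M ⊆ A := by
    intro S hS
    rw [hM, mem_image] at hS
    obtain ⟨x, hx, rfl⟩ := hS
    apply sup_mem_uc A huc _ (filter_subset _ _)
    obtain ⟨S, hS, hxS⟩ := hall x hx
    exact ⟨S, mem_filter.mpr ⟨hS, hxS⟩⟩
  have hcard : M.card = (types A).card := by
    have h1 : M = (types A).image (fun C => (A \ C).sup id) := by
      rw [hM, types, image_image]
      apply image_congr
      intro x _
      simp only [Function.comp, Mx]
      congr 1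
      ext S
      simp only [mem_filter, mem_sdiff]
      tauto
    rw [h1]
    apply card_image_of_injOn
    intro C hC C' hC' h
    rw [mem_coe, types, mem_image] at hC hC'
    obtain ⟨x, hx, rfl⟩ := hC
    obtain ⟨y, hy, rfl⟩ := hC'
    apply Mx_eq_iff
    have e : ∀ x, (A \ A.filter (fun S => x ∈ S)) = A.filter (fun S => x ∉ S) := by
      intro x
      ext S
      simp only [mem_filter, mem_sdiff]
      tauto
    simp only [e] at h
    exact h
  have htop : A.sup id ∈ A := sup_mem_uc A huc A Subset.rfl ⟨S0, hS0⟩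
  have htopM : A.sup id ∉ M := by
    intro h
    rw [hM, mem_image] at h
    obtain ⟨x, hx, h⟩ := h
    exact notMem_Mx A x (h ▸ hx)
  obtain ⟨y0, hy0⟩ := hne
  have hy0' : y0 ∈ A.sup id := (le_sup (f := id) hS0) hy0
  obtain ⟨y, hy, hmax⟩ := exists_max_image
    ((A.sup id).filter (fun y => A.filter (fun S => y0 ∈ S) ⊆ A.filter (fun S => y ∈ S)))
    (fun y => (A.filter (fun S => y ∈ S)).card) ⟨y0, mem_filter.mpr ⟨hy0', Subset.rfl⟩⟩
  rw [mem_filter] at hy
  refine ⟨y, (mem_filter.mp (hy.2 (mem_filter.mpr ⟨hS0, hy0⟩))).2, ?_⟩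
  have h1 : ∀ S ∈ M.erase (Mx A y), y ∈ S := by
    intro S hS
    rw [mem_erase, hM, mem_image] at hS
    obtain ⟨hne, x, hx, rfl⟩ := hS
    by_contra hyx
    apply hne
    apply Mx_eq
    have hsub : A.filter (fun S => y ∈ S) ⊆ A.filter (fun S => x ∈ S) := by
      intro S hS
      rw [mem_filter] at hS ⊢
      refine ⟨hS.1, ?_⟩
      by_contra hxS
      exact hyx (le_Mx hS.1 hxS hS.2)
    have h2 := hmax x (mem_filter.mpr ⟨hx, hy.2.trans hsub⟩)
    exact (eq_of_subset_of_card_le hsub h2).symm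
  have h2 : Mx A y ∈ M := mem_image_of_mem _ hy.1
  have h3 : (M.erase (Mx A y)).card = (types A).card - 1 := by
    rw [card_erase_of_mem h2, hcard]
  have h4 : 0 < (types A).card := by
    rw [← hcard]
    exact card_pos.mpr ⟨_, h2⟩
  have h5 : A.sup id ∉ M.erase (Mx A y) := fun h => htopM (mem_of_mem_erase h)
  have h6 : insert (A.sup id) (M.erase (Mx A y)) ⊆ A.filter (fun S => y ∈ S) := by
    intro S hS
    rw [mem_filter]
    rcases mem_insert.mp hS with rfl | hS
    · exact ⟨htop, hy.1⟩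
    · exact ⟨hMA (mem_of_mem_erase hS), h1 S hS⟩
  have h7 := card_le_card h6
  rw [card_insert_of_notMem h5, h3] at h7
  omega

/-- if `m ≤ 2 n`, every nonempty member contains a half-frequent element -/
theorem local_half (A : Finset (Finset ℕ)) (huc : ∀ X ∈ A, ∀ Y ∈ A, X ∪ Y ∈ A)
    (hm : A.card ≤ 2 * (types A).card) :
    ∀ S ∈ A, S.Nonempty → ∃ y ∈ S, A.card ≤ 2 * (A.filter (fun T => y ∈ T)).card := by
  intro S0 hS0 hne
  by_cases hall : ∀ z ∈ A.sup id, ∃ S ∈ A, z ∉ S
  · obtain ⟨y, hy, h1⟩ := exists_freq A huc hall S0 hS0 hne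
    exact ⟨y, hy, by omega⟩
  · push Not at hall
    obtain ⟨z, hz, hzA⟩ := hall
    refine ⟨z, hzA S0 hS0, ?_⟩
    rw [filter_true_of_mem hzA]
    omega

end Pool.Agent.H200R3.TwoN
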